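import Pool.Agent.V1121.PG.Few
import Pool.Agent.H217R3.AK.Bsg

/-! Power savings on arithmetic progressions give small additive energy. -/

set_option autoImplicit false
set_option maxHeartbeats 4000000

namespace Pool.Agent.V1121.PG

open Finset Pool.Agent.TH513.IS
open scoped Pointwise

theorem sm_two_le' {G : Type*} [AddCommGroup G] [DecidableEq G] (B : Finset G) :
    (sm B 2).card ≤ (B + B).card := by
  apply Finset.card_le_card
  intro x hx
  obtain ⟨f, hf, rfl⟩ := mem_sm.1 hx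
  rw [Fin.sum_univ_two]
  exact Finset.add_mem_add (hf 0) (hf 1)

open Classical in
/-- additive energy of sets with power savings on progressions -/
theorem energy_pow (D c η : ℝ) (hD : 0 ≤ D) (hc : 0 < c) (hc1 : c ≤ 1) (hη : 0 < η) :
    ∃ C₁ : ℝ, 0 < C₁ ∧ ∀ {G : Type} [AddCommGroup G] [DecidableEq G]
      (_ : ∀ (n : ℕ) (x : G), n ≠ 0 → n • x = 0 → x = 0) (H Z : Set G)
      (_ : ∀ (L : ℕ) (x : G), x ∈ H → L • x ∈ H)
      (_ : ∀ x θ : G, θ ∉ H → ∀ L : ℕ, 1 ≤ L →
        (((range L).filter (fun j : ℕ => x + j • θ ∈ Z)).card : ℝ) ≤ D * L * (L:ℝ) ^ (-c))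
      (B : Finset G) (K : ℝ), 1 ≤ K → B.Nonempty → (∀ b ∈ B, b ∈ Z) →
      (∀ b ∈ B, ∀ b' ∈ B, b ≠ b' → b - b' ∉ H) → (B.card : ℝ) ^ 3 ≤ K * (B.addEnergy B : ℕ) →
      Real.log B.card ≤ C₁ * (1 + Real.log K) ^ (2 + η) := by
  have hl1D : 0 ≤ Real.log (1 + 2 * D) := Real.log_nonneg (by linarith)
  refine ⟨3 + (54730 / c) * (Real.log (1 + 2 * D) + 3712000 * (6 + 2 / η)), by positivity, ?_⟩
  intro G _ _ htf H Z hH hAP B K hK1 hB hBZ hBH hE
  have hK0 : 0 < K := by linarith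
  have hlK : 0 ≤ Real.log K := Real.log_nonneg hK1
  obtain ⟨u, hu⟩ : ∃ u : ℝ, u = 1 + Real.log K := ⟨_, rfl⟩
  rw [← hu]
  have hu1 : 1 ≤ u := by rw [hu]; linarith
  have hu0 : 0 < u := by linarith
  obtain ⟨C, hCB, hC, hBC, hCC⟩ := Pool.Agent.H217R3.AK.bsg B hB K hK0 hE
  have hCpos : (0 : ℝ) < C.card := by exact_mod_cast hC.card_pos
  have hC1 : (1 : ℝ) ≤ C.card := by exact_mod_cast hC.card_pos
  obtain ⟨K₁, hK₁⟩ : ∃ K₁ : ℝ, K₁ = (2 ^ 22 * K ^ 10) ^ 2 := ⟨_, rfl⟩
  have hK₁1 : 1 ≤ K₁ := by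
    rw [hK₁]
    have h1 : (1 : ℝ) ≤ K ^ 10 := one_le_pow₀ hK1
    nlinarith
  have hCC2 : ((C + C).card : ℝ) ≤ K₁ * C.card := by
    have h1 := Finset.pluennecke_ruzsa_inequality_nsmul_sub_nsmul_sub hC C 2 0
    have h2 := (NNRat.cast_le (K := ℝ)).2 h1
    push_cast at h2
    rw [two_nsmul, zero_nsmul, sub_zero] at h2
    refine h2.trans ?_
    refine mul_le_mul_of_nonneg_right ?_ hCpos.le
    have h3 : ((C - C).card : ℝ) / C.card ≤ 2 ^ 22 * K ^ 10 := by rw [div_le_iff₀ hCpos]; exact hCC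
    rw [hK₁]
    exact pow_le_pow_left₀ (by positivity) h3 2
  have hsm : ((sm C 2).card : ℝ) ≤ K₁ * C.card := by
    refine le_trans ?_ hCC2
    exact_mod_cast sm_two_le' C
  have hl2 := Real.log_two_gt_d9
  have hl2' := Real.log_two_lt_d9
  obtain ⟨κ, hκ⟩ : ∃ κ : ℝ, κ = Real.log (2 * K₁) := ⟨_, rfl⟩
  have hκ0 : 0 ≤ κ := by rw [hκ]; exact Real.log_nonneg (by linarith)
  have hκu : κ ≤ 32 * u := by
    rw [hκ, hK₁, Real.log_mul (by norm_num) (by positivity), Real.log_pow,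
      Real.log_mul (by norm_num) (by positivity), Real.log_pow, Real.log_pow, hu]
    push_cast
    linarith
  -- the parameter `r`
  obtain ⟨r, hr⟩ : ∃ r : ℕ, r = 5 + ⌈Real.log u / Real.log 2⌉₊ := ⟨_, rfl⟩
  have hlu : 0 ≤ Real.log u := Real.log_nonneg hu1
  have hl20 : 0 < Real.log 2 := by linarith
  have hr2 : 32 * u ≤ (2:ℝ) ^ r := by
    rw [hr, pow_add]
    have h1 : u ≤ (2:ℝ) ^ ⌈Real.log u / Real.log 2⌉₊ := by
      have h2 : Real.log u ≤ (⌈Real.log u / Real.log 2⌉₊ : ℝ) * Real.log 2 := by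
        rw [← div_le_iff₀ hl20]
        exact Nat.le_ceil _
      rw [← Real.log_pow] at h2
      exact (Real.log_le_log_iff hu0 (by positivity)).1 h2
    norm_num
    exact h1
  have hup : Real.log u ≤ u ^ η / η := Real.log_le_rpow_div hu0.le hη
  have huη : 1 ≤ u ^ η := Real.one_le_rpow hu1 hη.le
  have hru : (r : ℝ) ≤ (6 + 2 / η) * u ^ η := by
    have h1 : (⌈Real.log u / Real.log 2⌉₊ : ℝ) ≤ Real.log u / Real.log 2 + 1 :=
      (Nat.ceil_lt_add_one (div_nonneg hlu hl20.le)).le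
    have h2 : Real.log u / Real.log 2 ≤ 2 * Real.log u := by
      rw [div_le_iff₀ hl20]
      nlinarith
    have h3 : 2 * Real.log u ≤ 2 / η * u ^ η := by
      calc 2 * Real.log u ≤ 2 * (u ^ η / η) := by linarith
        _ = 2 / η * u ^ η := by ring
    rw [hr]
    push_cast
    nlinarith
  have hkn : Real.log (2 * K₁) ≤ ((2:ℕ) : ℝ) ^ r := by
    rw [← hκ]
    push_cast
    linarith
  have hm := main_iter htf H Z hH D c hD hc.le hc1 (r := r) (n₀ := 2) (by omega) (le_refl 2) C C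
    (fun x θ hθ L hL _ => hAP x θ hθ L hL) hC hsm hkn (Finset.Subset.refl C)
    (fun b hb => hBZ b (hCB hb)) (fun b hb b' hb' hne => hBH b (hCB hb) b' (hCB hb') hne)
  push_cast at hm
  rw [← hκ] at hm
  obtain ⟨s, hs⟩ : ∃ s : ℝ, s = c / (842 * (1 + κ / Real.log 2)) := ⟨_, rfl⟩
  rw [← hs] at hm
  have hX : 0 < 1 + κ / Real.log 2 := by
    have : 0 ≤ κ / Real.log 2 := div_nonneg hκ0 hl20.le
    linarith
  have hs0 : 0 < s := by rw [hs]; positivity
  have h1 : (C.card : ℝ) ^ s ≤ (1 + 2 * D) * (2 * K₁) ^ (116000 * r) := by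
    have e1 : (C.card : ℝ) ^ (1 - s) = C.card / (C.card : ℝ) ^ s := by
      rw [Real.rpow_sub hCpos, Real.rpow_one]
    rw [e1] at hm
    have hps : 0 < (C.card : ℝ) ^ s := Real.rpow_pos_of_pos hCpos s
    rw [mul_div_assoc', le_div_iff₀ hps] at hm
    have h2 : (C.card : ℝ) * (C.card : ℝ) ^ s ≤ (C.card : ℝ) * ((1 + 2 * D) * (2 * K₁) ^ (116000 * r)) := by
      linarith
    exact le_of_mul_le_mul_left h2 hCpos
  have h2 : s * Real.log C.card ≤ Real.log (1 + 2 * D) + (116000 * r) * κ := by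
    have h3 := Real.log_le_log (Real.rpow_pos_of_pos hCpos s) h1
    rw [Real.log_rpow hCpos, Real.log_mul (by positivity) (by positivity), Real.log_pow, ← hκ] at h3
    push_cast at h3
    exact h3
  have hsinv : 1 ≤ (54730 / c * u) * s := by
    have h3 : 842 * (1 + κ / Real.log 2) ≤ 54730 * u := by
      have h4 : κ / Real.log 2 ≤ 64 * u := by
        rw [div_le_iff₀ hl20]
        nlinarith
      linarith
    rw [hs, div_mul_eq_mul_div, div_mul_div_comm, le_div_iff₀ (by positivity)]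
    nlinarith
  have hR0 : 0 ≤ Real.log (1 + 2 * D) + (116000 * r) * κ := by positivity
  have hlC : 0 ≤ Real.log C.card := Real.log_nonneg hC1
  have h3 : Real.log C.card ≤ (54730 / c * u) * (Real.log (1 + 2 * D) + (116000 * r) * κ) := by
    calc Real.log C.card ≤ ((54730 / c * u) * s) * Real.log C.card := by nlinarith
      _ = (54730 / c * u) * (s * Real.log C.card) := by ring
      _ ≤ _ := mul_le_mul_of_nonneg_left h2 (by positivity)
  have hupow : u ^ (2 + η) = u * u * u ^ η := by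
    rw [Real.rpow_add hu0, Real.rpow_two]; ring
  have h4 : Real.log (1 + 2 * D) + (116000 * r) * κ ≤
      (Real.log (1 + 2 * D) + 3712000 * (6 + 2 / η)) * (u * u ^ η) := by
    have h5 : (116000 * (r:ℝ)) * κ ≤ (116000 * ((6 + 2 / η) * u ^ η)) * (32 * u) := by
      apply mul_le_mul _ hκu hκ0 (by positivity)
      linarith
    have h6 : 1 ≤ u * u ^ η := by nlinarith
    have h7 : Real.log (1 + 2 * D) ≤ Real.log (1 + 2 * D) * (u * u ^ η) := by nlinarith
    nlinarith
  have h5 : Real.log C.card ≤ (54730 / c) * (Real.log (1 + 2 * D) + 3712000 * (6 + 2 / η)) * u ^ (2 + η) := by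
    refine h3.trans ?_
    calc (54730 / c * u) * (Real.log (1 + 2 * D) + (116000 * r) * κ) ≤
        (54730 / c * u) * ((Real.log (1 + 2 * D) + 3712000 * (6 + 2 / η)) * (u * u ^ η)) :=
          mul_le_mul_of_nonneg_left h4 (by positivity)
      _ = _ := by rw [hupow]; ring
  have hBpos : (0 : ℝ) < B.card := by exact_mod_cast hB.card_pos
  have h6 : Real.log B.card ≤ 3 * u + Real.log C.card := by
    have h7 := Real.log_le_log hBpos hBC
    rw [Real.log_mul (by positivity) (by positivity), Real.log_mul (by norm_num) (by positivity)] at h7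
    have h8 : Real.log 8 ≤ 3 := by
      have : (8:ℝ) = 2 ^ 3 := by norm_num
      rw [this, Real.log_pow]
      push_cast
      linarith
    rw [hu]
    linarith
  have h7 : 3 * u ≤ 3 * u ^ (2 + η) := by
    rw [hupow]
    have : u * 1 ≤ u * (u * u ^ η) := mul_le_mul_of_nonneg_left (by nlinarith) hu0.le
    linarith
  linarith

end Pool.Agent.V1121.PG
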