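import Pool.Agent.Y940.PA.Fin
import Pool.Agent.V1121.PF.IterGap
import Pool.Agent.V1121.PF.Coset
import Pool.Agent.H217R3.AK.Bsg

/-! Sets of density zero on arithmetic progressions, uniformly, have density zero in sets of small doubling,
and their finite subsets have small additive energy. -/

set_option autoImplicit false
set_option maxHeartbeats 4000000

namespace Pool.Agent.V1121.PG

open Finset Pool.Agent.TH513.IS
open scoped Pointwise

theorem sm_two_le {G : Type*} [AddCommGroup G] [DecidableEq G] (B : Finset G) :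
    (sm B 2).card ≤ (B + B).card := by
  apply Finset.card_le_card
  intro x hx
  obtain ⟨f, hf, rfl⟩ := mem_sm.1 hx
  rw [Fin.sum_univ_two]
  exact Finset.add_mem_add (hf 0) (hf 1)

open Classical in
/-- the main estimate -/
theorem density {G : Type*} [AddCommGroup G] [DecidableEq G]
    (htf : ∀ (n : ℕ) (x : G), n ≠ 0 → n • x = 0 → x = 0) (K : ℝ) :
    ∃ (D : ℕ) (T₀ : ℝ), 0 < T₀ ∧ ∀ (Z : Set G) (L : ℕ) (δ : ℝ), 1 ≤ L → 0 ≤ δ →
      (∀ x θ : G, θ ≠ 0 → (((range L).filter (fun j : ℕ => x + j • θ ∈ Z)).card : ℝ) ≤ δ * L) →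
      ∀ B : Finset G, B.Nonempty → ((B + B).card : ℝ) ≤ K * B.card → (∀ b ∈ B, b ∈ Z) →
      (B.card : ℝ) ≤ T₀ * ((L : ℝ) ^ D + 3 ^ D * B.card * δ) := by
  obtain ⟨k, hk⟩ := pow_unbounded_of_one_lt (Real.log (2 * K)) (one_lt_two : (1:ℝ) < 2)
  refine ⟨⌈420 * (1 + Real.log (2 * K) / Real.log 2)⌉₊, max 1 ((2 * K) ^ (113000 * (k + 1))), by positivity, ?_⟩
  set D : ℕ := ⌈420 * (1 + Real.log (2 * K) / Real.log 2)⌉₊ with hD
  intro Z L δ hL hδ hAP B hB hK hBZ
  have hKc : ((sm B 2).card : ℝ) ≤ K * B.card := by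
    refine le_trans ?_ hK
    exact_mod_cast sm_two_le B
  have hk2 : Real.log (2 * K) ≤ ((2:ℕ) : ℝ) ^ (k + 1) := by
    push_cast
    have : (2:ℝ) ^ k ≤ 2 ^ (k + 1) := pow_le_pow_right₀ (by norm_num) (by omega)
    linarith
  obtain ⟨d, v, N, T, hd, hN, hprop, hvol, hT, hcov⟩ :=
    V1121.PF.iterated_gap' htf (by omega : 1 ≤ k + 1) (le_refl 2) hB hKc hk2
  have hdD : d ≤ D := by
    have h1 : (d : ℝ) ≤ D := hd.trans (by push_cast; exact Nat.le_ceil _)
    exact_mod_cast h1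
  have hLr : (1:ℝ) ≤ L := by exact_mod_cast hL
  -- the representation
  have hrep : ∀ b : G, ∃ t : G, ∃ n : Fin d → ℤ, b ∈ B → (t ∈ T ∧ (∀ i, 0 ≤ n i ∧ n i < N i) ∧
      b = t + ∑ i, n i • v i) := by
    intro b
    by_cases hb : b ∈ B
    · obtain ⟨t, ht, n, hn, hb2⟩ := hcov b hb
      refine ⟨t, fun i => (n i : ℤ), fun _ => ⟨ht, fun i => ⟨by positivity, ?_⟩, ?_⟩⟩
      · have h5 := hn i
        show (n i : ℤ) < N i
        exact_mod_cast h5
      · rw [hb2]
        congr 1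
        apply Finset.sum_congr rfl
        intro i _
        rw [natCast_zsmul]
    · exact ⟨b, 0, fun h => absurd h hb⟩
  choose τ ν hτν using hrep
  have hvolr : (∏ i, (N i : ℝ)) ≤ B.card := by
    have : ((∏ i, N i : ℕ) : ℝ) ≤ B.card := by exact_mod_cast hvol
    rwa [Nat.cast_prod] at this
  have hprod0 : (0:ℝ) ≤ ∏ i, (N i : ℝ) := Finset.prod_nonneg (fun i _ => Nat.cast_nonneg _)
  -- each translate
  have hEt : ∀ t ∈ T, ((B.filter (fun b => τ b = t)).card : ℝ) ≤
      (L : ℝ) ^ D + 3 ^ D * B.card * δ := by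
    intro t _
    set Bt := B.filter (fun b => τ b = t) with hBt
    have hmem : ∀ b ∈ Bt, b ∈ B ∧ τ b = t := fun b hb => Finset.mem_filter.1 hb
    have hinj : Set.InjOn ν (Bt : Set G) := by
      intro b hb b' hb' h
      obtain ⟨h1, h2⟩ := hmem b hb
      obtain ⟨h1', h2'⟩ := hmem b' hb'
      rw [(hτν b h1).2.2, (hτν b' h1').2.2, h2, h2', h]
    have hcardE : (Bt.image ν).card = Bt.card := Finset.card_image_of_injOn hinj
    rw [← hcardE]
    have hgrid := Pool.Agent.Y56.LW.grid d N (Bt.image ν)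
      (by
        intro n hn
        obtain ⟨b, hb, rfl⟩ := Finset.mem_image.1 hn
        exact (hτν b (hmem b hb).1).2.1) L hL δ hδ
      (by
        intro n hn n' hn' hne w hw y
        obtain ⟨b, hb, rfl⟩ := Finset.mem_image.1 hn
        obtain ⟨b', hb', rfl⟩ := Finset.mem_image.1 hn'
        obtain ⟨h1, h2⟩ := hmem b hb
        obtain ⟨h1', h2'⟩ := hmem b' hb'
        have hbb : b ≠ b' := fun h => hne (by rw [h])
        set θ : G := ∑ i, w i • v i with hθ
        have hLθ : L • θ = b - b' := by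
          rw [(hτν b h1).2.2, (hτν b' h1').2.2, h2, h2', hθ, add_sub_add_left_eq_sub,
            ← Finset.sum_sub_distrib, Finset.smul_sum]
          apply Finset.sum_congr rfl
          intro i _
          rw [← sub_smul, ← hw i, mul_smul, natCast_zsmul]
        have hθ0 : θ ≠ 0 := by
          intro h
          apply hbb
          rw [← sub_eq_zero, ← hLθ, h, smul_zero]
        have h3 := hAP (t + ∑ i, y i • v i) θ hθ0
        refine le_trans ?_ h3
        have h4 : ((range L).filter (fun j : ℕ => (fun i => y i + (j : ℤ) * w i) ∈ Bt.image ν)).card ≤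
            ((range L).filter (fun j : ℕ => (t + ∑ i, y i • v i) + j • θ ∈ Z)).card := by
          apply Finset.card_le_card
          intro j hj
          rw [Finset.mem_filter] at hj ⊢
          refine ⟨hj.1, ?_⟩
          obtain ⟨e, he, he2⟩ := Finset.mem_image.1 hj.2
          obtain ⟨h5, h6⟩ := hmem e he
          have h7 : (t + ∑ i, y i • v i) + j • θ = e := by
            rw [(hτν e h5).2.2, h6, he2, hθ, Finset.smul_sum, add_assoc, ← Finset.sum_add_distrib]
            congr 1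
            apply Finset.sum_congr rfl
            intro i _
            rw [add_smul, mul_smul, natCast_zsmul]
          rw [h7]
          exact hBZ e h5
        exact_mod_cast h4)
    refine hgrid.trans ?_
    have h1 : (L:ℝ)^d ≤ (L:ℝ)^D := pow_le_pow_right₀ hLr hdD
    have h2 : (3:ℝ)^d ≤ (3:ℝ)^D := pow_le_pow_right₀ (by norm_num) hdD
    have h3 : (3:ℝ)^d * (∏ i, (N i : ℝ)) * δ ≤ 3 ^ D * B.card * δ := by
      apply mul_le_mul_of_nonneg_right _ hδ
      exact mul_le_mul h2 hvolr hprod0 (by positivity)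
    linarith
  -- sum over the translates
  have hsum : (B.card : ℝ) ≤ T.card * ((L : ℝ) ^ D + 3 ^ D * B.card * δ) := by
    have h1 : B.card = ∑ t ∈ T, (B.filter (fun b => τ b = t)).card :=
      Finset.card_eq_sum_card_fiberwise (fun b hb => (hτν b hb).1)
    have h2 : (B.card : ℝ) = ∑ t ∈ T, ((B.filter (fun b => τ b = t)).card : ℝ) := by
      exact_mod_cast h1
    calc (B.card : ℝ) = ∑ t ∈ T, ((B.filter (fun b => τ b = t)).card : ℝ) := h2
      _ ≤ ∑ _t ∈ T, ((L : ℝ) ^ D + 3 ^ D * B.card * δ) := Finset.sum_le_sum hEt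
      _ = _ := by rw [Finset.sum_const, nsmul_eq_mul]
  refine hsum.trans ?_
  apply mul_le_mul_of_nonneg_right _ (by positivity)
  exact hT.trans (le_max_right _ _)

open Classical in
/-- the energy of finite subsets -/
theorem energy {G : Type*} [AddCommGroup G] [DecidableEq G]
    (htf : ∀ (n : ℕ) (x : G), n ≠ 0 → n • x = 0 → x = 0) (𝒵 : Set (Set G))
    (hAP : ∀ δ : ℝ, 0 < δ → ∃ L : ℕ, 1 ≤ L ∧ ∀ Z ∈ 𝒵, ∀ x θ : G, θ ≠ 0 →
      (((range L).filter (fun j : ℕ => x + j • θ ∈ Z)).card : ℝ) ≤ δ * L) (η : ℝ) (hη : 0 < η) :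
    ∃ N₁ : ℕ, ∀ Z ∈ 𝒵, ∀ B : Finset G, (∀ b ∈ B, b ∈ Z) → N₁ ≤ B.card →
      ((B.addEnergy B : ℕ) : ℝ) < η * (B.card : ℝ) ^ 3 := by
  set K : ℝ := 1 / η with hKdef
  have hK0 : 0 < K := by positivity
  set K₁ : ℝ := (2 ^ 22 * K ^ 10) ^ 2 with hK₁
  obtain ⟨D, T₀, hT₀, hd⟩ := density htf K₁
  obtain ⟨L, hL, hLAP⟩ := hAP (1 / (2 * T₀ * 3 ^ D)) (by positivity)
  obtain ⟨N₁, hN₁⟩ := exists_nat_gt (8 * K * (2 * T₀ * (L:ℝ) ^ D))
  refine ⟨N₁ + 1, ?_⟩
  intro Z hZ B hBZ hBc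
  by_contra hcon
  push Not at hcon
  have hBne : B.Nonempty := Finset.card_pos.1 (by omega)
  have hE : (B.card : ℝ) ^ 3 ≤ K * (B.addEnergy B : ℕ) := by
    rw [hKdef, one_div, ← div_eq_inv_mul, le_div_iff₀ hη]
    linarith
  obtain ⟨C, hCB, hC, hBC, hCC⟩ := Pool.Agent.H217R3.AK.bsg B hBne K hK0 hE
  have hCpos : (0 : ℝ) < C.card := by exact_mod_cast hC.card_pos
  have hCC2 : ((C + C).card : ℝ) ≤ K₁ * C.card := by
    have h1 := Finset.pluennecke_ruzsa_inequality_nsmul_sub_nsmul_sub hC C 2 0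
    have h2 := (NNRat.cast_le (K := ℝ)).2 h1
    push_cast at h2
    rw [two_nsmul, zero_nsmul, sub_zero] at h2
    refine h2.trans ?_
    refine mul_le_mul_of_nonneg_right ?_ hCpos.le
    have h3 : ((C - C).card : ℝ) / C.card ≤ 2 ^ 22 * K ^ 10 := by rw [div_le_iff₀ hCpos]; exact hCC
    rw [hK₁]
    exact pow_le_pow_left₀ (by positivity) h3 2
  have h1 := hd Z L (1 / (2 * T₀ * 3 ^ D)) hL (by positivity) (hLAP Z hZ) C hC hCC2
    (fun b hb => hBZ b (hCB hb))
  have h2 : T₀ * (3 ^ D * (C.card : ℝ) * (1 / (2 * T₀ * 3 ^ D))) = C.card / 2 := by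
    field_simp
  rw [mul_add, h2] at h1
  have h3 : (C.card : ℝ) ≤ 2 * T₀ * (L:ℝ)^D := by linarith
  have h4 : (B.card : ℝ) ≤ 8 * K * (2 * T₀ * (L:ℝ)^D) := by
    refine hBC.trans ?_
    exact mul_le_mul_of_nonneg_left h3 (by positivity)
  have h5 : (N₁ : ℝ) + 1 ≤ B.card := by exact_mod_cast hBc
  linarith

end Pool.Agent.V1121.PG
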