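import Pool.Agent.V1121.PG.Power
import Pool.Agent.TH7.PG.HalfF

/-! Character sums over a set nearly invariant under a set of polynomial growth, and an arbitrary set. -/

set_option autoImplicit false
set_option maxHeartbeats 4000000

open Finset
open scoped Pointwise

namespace Pool.Agent.V1121.PG

open Pool.Agent.W27.SD Pool.Agent.W27.BG

theorem lin_single {p d : ℕ} [Fact p.Prime] (v : Fin d → ZMod p) (i : Fin d) (m : ℤ) :
    lin v (Pi.single i m) = (m : ZMod p) * v i := by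
  classical
  unfold lin
  rw [Finset.sum_eq_single i]
  · simp
  · intro j _ hj
    simp [Pi.single_eq_of_ne hj]
  · intro h
    exact absurd (Finset.mem_univ i) h

/-- the growth of `A` under the longest side of the progression -/
theorem growth_long {p d : ℕ} [Fact p.Prime] (v : Fin d → ZMod p) (R : Fin d → ℕ)
    (T B A X : Finset (ZMod p))
    (hcov : ∀ a ∈ B, ∃ t ∈ T, ∃ c : Fin d → ℤ, (∀ i, |c i| ≤ R i) ∧ a = t + lin v c)
    (hX : ∀ a ∈ A, ∃ x ∈ X, ∃ b ∈ B, ∃ b' ∈ B, a = x + (b - b')) (i₀ : Fin d) :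
    ((A + (range (R i₀)).image fun i : ℕ => (i : ZMod p) * v i₀).card : ℝ) ≤
      X.card * (T.card * T.card) * (3 ^ d * ∏ i, (2 * (R i : ℝ) + 1)) := by
  classical
  have hsub : A + (range (R i₀)).image (fun i : ℕ => (i : ZMod p) * v i₀) ⊆
      ((X + (T - T)) ×ˢ bx (fun i => 3 * R i)).image (fun q => q.1 + lin v q.2) := by
    intro s hs
    rw [Finset.mem_add] at hs
    obtain ⟨a, ha, w, hw, rfl⟩ := hs
    rw [Finset.mem_image] at hw
    obtain ⟨m, hm, rfl⟩ := hw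
    rw [Finset.mem_range] at hm
    obtain ⟨x, hx, b, hb, b', hb', e⟩ := hX a ha
    obtain ⟨t, ht, c, hc, e1⟩ := hcov b hb
    obtain ⟨t', ht', c', hc', e2⟩ := hcov b' hb'
    rw [Finset.mem_image]
    refine ⟨(x + (t - t'), (c - c') + Pi.single i₀ (m : ℤ)), Finset.mem_product.2 ⟨?_, ?_⟩, ?_⟩
    · exact Finset.add_mem_add hx (Finset.sub_mem_sub ht ht')
    · rw [mem_bx]
      intro i
      show |(c i - c' i) + (Pi.single i₀ (m : ℤ) : Fin d → ℤ) i| ≤ ((3 * R i : ℕ) : ℤ)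
      have h1 := abs_le.1 (hc i)
      have h2 := abs_le.1 (hc' i)
      have h3 : 0 ≤ (Pi.single i₀ (m : ℤ) : Fin d → ℤ) i ∧
          (Pi.single i₀ (m : ℤ) : Fin d → ℤ) i ≤ R i := by
        by_cases h : i = i₀
        · subst h
          rw [Pi.single_eq_same]
          constructor
          · positivity
          · exact_mod_cast hm.le
        · rw [Pi.single_eq_of_ne h]
          constructor
          · exact le_rfl
          · positivity
      push_cast
      rw [abs_le]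
      constructor <;> linarith [h1.1, h1.2, h2.1, h2.2, h3.1, h3.2]
    · show (x + (t - t')) + lin v ((c - c') + Pi.single i₀ (m : ℤ)) = _
      rw [lin_add, lin_sub, lin_single, e, e1, e2]
      push_cast
      ring
  have h1 := (Finset.card_le_card hsub).trans Finset.card_image_le
  rw [Finset.card_product, card_bx] at h1
  have h2 : (X + (T - T)).card ≤ X.card * (T.card * T.card) :=
    Finset.card_add_le.trans (Nat.mul_le_mul_left _ Finset.card_sub_le)
  have h3 : ∏ i, (2 * (3 * R i) + 1) ≤ 3 ^ d * ∏ i, (2 * R i + 1) := by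
    calc ∏ i, (2 * (3 * R i) + 1) ≤ ∏ i, (3 * (2 * R i + 1)) :=
          Finset.prod_le_prod (fun _ _ => Nat.zero_le _) (fun i _ => by omega)
      _ = _ := by
          rw [Finset.prod_mul_distrib, Finset.prod_const, Finset.card_univ, Fintype.card_fin]
  have h4 := h1.trans (Nat.mul_le_mul h2 h3)
  exact_mod_cast h4

/-- **One set nearly invariant under a set of polynomial growth, the other one arbitrary.** -/
theorem one_structured (ε : ℝ) (hε : 0 < ε) (C : ℕ) :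
    ∃ τ : ℝ, 0 < τ ∧ ∃ p₀ : ℕ, ∀ (p : ℕ) [Fact p.Prime], p₀ ≤ p →
      ∀ χ : DirichletCharacter ℂ p, χ ≠ 1 → ∀ n : ℕ, 2 ≤ n → (n : ℝ) ≤ (p : ℝ) ^ τ →
      ∀ P : Finset (ZMod p), (p : ℝ) ^ ε ≤ P.card →
        (((Fintype.piFinset fun _ : Fin n => P).image fun f => ∑ i, f i).card : ℝ) ≤
          (n : ℝ) ^ C * (P.card : ℝ) →
        ∀ A B : Finset (ZMod p), ((A + P).card : ℝ) ≤ (p : ℝ) ^ τ * A.card →
          (p : ℝ) ^ ε ≤ B.card →
          (p : ℝ) ^ (1 + ε) ≤ A.card * B.card * (P.card : ℝ) ^ (1 / (420 * ((C : ℝ) + 2))) →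
          ∀ f g : ZMod p → ℂ, ‖∑ a ∈ A, ∑ b ∈ B, f a * g b * χ (a + b)‖ ≤ (p : ℝ) ^ (-τ) *
            ((Real.sqrt A.card * Real.sqrt B.card) *
              (Real.sqrt (∑ a ∈ A, ‖f a‖ ^ 2) * Real.sqrt (∑ b ∈ B, ‖g b‖ ^ 2))) := by
  classical
  obtain ⟨D, hD⟩ : ∃ D : ℕ, D = 420 * (C + 2) := ⟨_, rfl⟩
  have hD1 : 1 ≤ D := by omega
  have hDR : (1 : ℝ) ≤ D := by exact_mod_cast hD1
  have hD0 : (0 : ℝ) < D := by linarith
  have hDC : (D : ℝ) = 420 * ((C : ℝ) + 2) := by rw [hD]; push_cast; ring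
  obtain ⟨E, hE⟩ : ∃ E : ℕ, E = (C + 1) * (113000 * (C + 1)) := ⟨_, rfl⟩
  have hE1 : 1 ≤ E := by
    rw [hE]
    exact Nat.mul_pos (by omega) (by omega)
  have hER : (1 : ℝ) ≤ E := by exact_mod_cast hE1
  obtain ⟨e₁, he₁⟩ : ∃ e₁ : ℝ, e₁ = ε / (4 * D) := ⟨_, rfl⟩
  have he₁0 : 0 < e₁ := by rw [he₁]; positivity
  have he₁D : e₁ * (4 * D) = ε := by rw [he₁]; field_simp
  have he₁ε : 4 * e₁ ≤ ε := by nlinarith
  obtain ⟨τ₁, hτ₁, p₁, hhalf⟩ := Pool.Agent.TH7.PG.half e₁ he₁0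
  obtain ⟨τ, hτdef⟩ : ∃ τ : ℝ, τ = min τ₁ ε / (4 * (E + 1)) := ⟨_, rfl⟩
  have hmin0 : 0 < min τ₁ ε := lt_min hτ₁ hε
  have hτ0 : 0 < τ := by rw [hτdef]; positivity
  have hτE : τ * (4 * (E + 1)) = min τ₁ ε := by rw [hτdef]; field_simp
  have hτ1 : τ * (4 * (E + 1)) ≤ τ₁ := hτE.le.trans (min_le_left _ _)
  have hτ2 : τ * (4 * (E + 1)) ≤ ε := hτE.le.trans (min_le_right _ _)
  have hτE0 : 0 < τ * E := by positivity
  obtain ⟨P1, hP1⟩ := large_rpow (τ₁ / 2) (3 ^ D) (by positivity)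
  obtain ⟨P2, hP2⟩ := large_rpow (2 * e₁) 3 (by positivity)
  refine ⟨τ, hτ0, p₁ + P1 + P2 + 3, ?_⟩
  intro p _ hp χ hχ n hn hnp P hPε hL A B hAP hBε hABP f g
  have hP1' := hP1 p (by omega)
  have hP2' := hP2 p (by omega)
  have hp3 : 3 ≤ p := by omega
  have hp1' : (1 : ℝ) < p := by exact_mod_cast (by omega : 1 < p)
  have hp1 : (1 : ℝ) ≤ p := hp1'.le
  have hp0 : (0 : ℝ) < p := by linarith
  have hP0 : (0 : ℝ) < P.card := lt_of_lt_of_le (by positivity) hPε
  have hPne : P.Nonempty := by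
    rw [← Finset.card_pos]
    exact_mod_cast hP0
  have hnR : (2 : ℝ) ≤ n := by exact_mod_cast hn
  obtain ⟨q1, q2, q3, q4⟩ := power_params C n hn
  obtain ⟨d, v, R, T, hd, hprop, hvol, hT, hcov⟩ := struct_zmod hp3 (show 1 ≤ C + 1 by omega) hn hPne
    hL q2
  have hdD : d ≤ D := by
    have h1 : (d : ℝ) ≤ D := by
      rw [hDC]
      exact hd.trans (mul_le_mul_of_nonneg_left q4 (by norm_num))
    exact_mod_cast h1
  -- the number of translates
  have hTp : (T.card : ℝ) ≤ (p : ℝ) ^ (τ * E) := by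
    calc (T.card : ℝ) ≤ (2 * (n : ℝ) ^ C) ^ (113000 * (C + 1)) := hT
      _ ≤ ((n : ℝ) ^ (C + 1)) ^ (113000 * (C + 1)) := by
          apply pow_le_pow_left₀ (by positivity)
          rw [pow_succ]
          have : (0 : ℝ) ≤ (n : ℝ) ^ C := by positivity
          nlinarith
      _ = (n : ℝ) ^ E := by rw [← pow_mul, hE]
      _ ≤ ((p : ℝ) ^ τ) ^ E := pow_le_pow_left₀ (by linarith) hnp _
      _ = (p : ℝ) ^ (τ * E) := by rw [← Real.rpow_natCast, ← Real.rpow_mul hp0.le]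
  have hPle : (P.card : ℝ) ≤ (p : ℝ) ^ (τ * E) * ∏ i, (2 * (R i : ℝ) + 1) := by
    have hsub : P ⊆ (T ×ˢ bx R).image (fun q => q.1 + lin v q.2) := by
      intro a ha
      obtain ⟨t, ht, c, hc, e⟩ := hcov a ha
      rw [Finset.mem_image]
      exact ⟨(t, c), Finset.mem_product.2 ⟨ht, mem_bx.2 hc⟩, e.symm⟩
    have h1 := (Finset.card_le_card hsub).trans Finset.card_image_le
    rw [Finset.card_product, card_bx] at h1
    have h2 : (P.card : ℝ) ≤ T.card * ∏ i, (2 * (R i : ℝ) + 1) := by exact_mod_cast h1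
    exact h2.trans (mul_le_mul_of_nonneg_right hTp (Finset.prod_nonneg fun i _ => by positivity))
  have hτEε : τ * E ≤ ε / 4 := by nlinarith
  have hd0 : 0 < d := by
    rcases Nat.eq_zero_or_pos d with h | h
    · exfalso
      subst h
      simp only [Finset.univ_eq_empty, Finset.prod_empty, mul_one] at hPle
      have h1 := hPε.trans hPle
      rw [Real.rpow_le_rpow_left_iff hp1'] at h1
      linarith
    · exact h
  have : Nonempty (Fin d) := ⟨⟨0, hd0⟩⟩
  obtain ⟨i₀, _, hi₀⟩ := Finset.exists_max_image (Finset.univ : Finset (Fin d)) R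
    Finset.univ_nonempty
  obtain ⟨r, hr⟩ : ∃ r : ℝ, r = 2 * (R i₀ : ℝ) + 1 := ⟨_, rfl⟩
  have hr1 : 1 ≤ r := by
    rw [hr]
    have : (0 : ℝ) ≤ R i₀ := Nat.cast_nonneg _
    linarith
  have hprodr : ∏ i, (2 * (R i : ℝ) + 1) ≤ r ^ D := by
    calc ∏ i, (2 * (R i : ℝ) + 1) ≤ ∏ _i : Fin d, r := by
          refine Finset.prod_le_prod (fun _ _ => by positivity) (fun i _ => ?_)
          rw [hr]
          have h1 : (R i : ℝ) ≤ R i₀ := by exact_mod_cast hi₀ i (Finset.mem_univ i)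
          linarith
      _ = r ^ d := by rw [Finset.prod_const, Finset.card_univ, Fintype.card_fin]
      _ ≤ r ^ D := pow_le_pow_right₀ hr1 hdD
  -- the long side
  have hPr : (P.card : ℝ) ^ (1 / (D : ℝ)) ≤ (p : ℝ) ^ (τ * E / D) * r := by
    have h1 : (P.card : ℝ) ≤ (p : ℝ) ^ (τ * E) * r ^ D :=
      hPle.trans (mul_le_mul_of_nonneg_left hprodr (by positivity))
    have h2 := Real.rpow_le_rpow hP0.le h1 (show 0 ≤ 1 / (D : ℝ) by positivity)
    rw [Real.mul_rpow (by positivity) (by positivity), ← Real.rpow_mul hp0.le,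
      ← Real.rpow_natCast r D, ← Real.rpow_mul (by linarith)] at h2
    have e1 : (D : ℝ) * (1 / D) = 1 := by field_simp
    have e2 : τ * E * (1 / (D : ℝ)) = τ * E / D := by ring
    rw [e1, e2, Real.rpow_one] at h2
    exact h2
  have hDe : ε / D = 4 * e₁ := by rw [he₁]; field_simp
  have hτED : τ * E / D ≤ e₁ := by
    rw [div_le_iff₀ hD0]
    have : e₁ * D = ε / 4 := by linarith
    linarith
  have hr3 : (p : ℝ) ^ (3 * e₁) ≤ r := by
    have h1 : (p : ℝ) ^ (4 * e₁) ≤ (P.card : ℝ) ^ (1 / (D : ℝ)) := by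
      have h2 := Real.rpow_le_rpow (by positivity) hPε (show 0 ≤ 1 / (D : ℝ) by positivity)
      rw [← Real.rpow_mul hp0.le] at h2
      have e1 : ε * (1 / (D : ℝ)) = 4 * e₁ := by rw [← hDe]; ring
      rwa [e1] at h2
    have h2 : (p : ℝ) ^ (4 * e₁) ≤ (p : ℝ) ^ e₁ * r :=
      h1.trans (hPr.trans (mul_le_mul_of_nonneg_right
        (Real.rpow_le_rpow_of_exponent_le hp1 hτED) (by linarith)))
    have h3 : (p : ℝ) ^ (4 * e₁) = (p : ℝ) ^ e₁ * (p : ℝ) ^ (3 * e₁) := by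
      rw [← Real.rpow_add hp0]
      congr 1
      ring
    rw [h3] at h2
    exact le_of_mul_le_mul_left h2 (by positivity)
  have h3e : (p : ℝ) ^ (3 * e₁) = (p : ℝ) ^ (2 * e₁) * (p : ℝ) ^ e₁ := by
    rw [← Real.rpow_add hp0]
    congr 1
    ring
  have hpe1 : 1 ≤ (p : ℝ) ^ e₁ := Real.one_le_rpow hp1 he₁0.le
  have hr3' : 3 * (p : ℝ) ^ e₁ ≤ r := by
    have h4 : 3 * (p : ℝ) ^ e₁ ≤ (p : ℝ) ^ (2 * e₁) * (p : ℝ) ^ e₁ :=
      mul_le_mul_of_nonneg_right hP2'.le (by positivity)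
    linarith
  have hRi : (1 : ℝ) ≤ R i₀ := by
    rw [hr] at hr3'
    linarith
  have hRi1 : 1 ≤ R i₀ := by exact_mod_cast hRi
  have hrN : r ≤ 3 * (R i₀ : ℝ) := by rw [hr]; linarith
  have hN1 : (p : ℝ) ^ e₁ ≤ R i₀ := by linarith
  have hz : v i₀ ≠ 0 := by
    intro h0
    have h1 := hprop (Pi.single i₀ 1) (by
      intro i
      by_cases h : i = i₀
      · subst h
        rw [Pi.single_eq_same]
        simp only [abs_one]
        exact_mod_cast hRi1
      · rw [Pi.single_eq_of_ne h]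
        simp) (by rw [lin_single, h0, mul_zero])
    have h2 := congrFun h1 i₀
    rw [Pi.single_eq_same] at h2
    simp at h2
  -- the growth of `A`
  obtain ⟨X, hXc, hX⟩ := cover_of_add A P hPne _ hAP
  have hgrow : ((A + (range (R i₀)).image fun i : ℕ => (i : ZMod p) * v i₀).card : ℝ) ≤
      (p : ℝ) ^ τ₁ * A.card := by
    have h1 := growth_long v R T P A X hcov hX i₀
    refine h1.trans ?_
    have h2 : (3 : ℝ) ^ d ≤ (p : ℝ) ^ (τ₁ / 2) :=
      (pow_le_pow_right₀ (by norm_num) hdD).trans hP1'.le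
    have h3 : (T.card : ℝ) * T.card ≤ (p : ℝ) ^ (2 * (τ * E)) := by
      calc (T.card : ℝ) * T.card ≤ (p : ℝ) ^ (τ * E) * (p : ℝ) ^ (τ * E) :=
            mul_le_mul hTp hTp (Nat.cast_nonneg _) (by positivity)
        _ = _ := by
            rw [← Real.rpow_add hp0]
            congr 1
            ring
    have hprod0 : 0 ≤ ∏ i, (2 * (R i : ℝ) + 1) := Finset.prod_nonneg fun i _ => by positivity
    calc (X.card : ℝ) * (T.card * T.card) * (3 ^ d * ∏ i, (2 * (R i : ℝ) + 1))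
        ≤ (X.card : ℝ) * (p : ℝ) ^ (2 * (τ * E)) * ((p : ℝ) ^ (τ₁ / 2) * P.card) := by
          refine mul_le_mul (mul_le_mul_of_nonneg_left h3 (Nat.cast_nonneg _))
            (mul_le_mul h2 hvol hprod0 (by positivity)) (by positivity) (by positivity)
      _ = ((X.card : ℝ) * P.card) * ((p : ℝ) ^ (2 * (τ * E)) * (p : ℝ) ^ (τ₁ / 2)) := by ring
      _ ≤ ((p : ℝ) ^ τ * A.card) * ((p : ℝ) ^ (2 * (τ * E)) * (p : ℝ) ^ (τ₁ / 2)) :=
          mul_le_mul_of_nonneg_right hXc (by positivity)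
      _ = (p : ℝ) ^ (τ + 2 * (τ * E) + τ₁ / 2) * A.card := by
          rw [Real.rpow_add hp0, Real.rpow_add hp0]
          ring
      _ ≤ (p : ℝ) ^ τ₁ * A.card := by
          apply mul_le_mul_of_nonneg_right _ (Nat.cast_nonneg _)
          apply Real.rpow_le_rpow_of_exponent_le hp1
          nlinarith
  -- the size condition
  have hsize : (p : ℝ) ^ (1 + e₁) ≤ A.card * B.card * (R i₀ : ℝ) := by
    have hAB0 : (0 : ℝ) ≤ A.card * B.card := by positivity
    have h1 : (p : ℝ) ^ (1 + ε) ≤ A.card * B.card * ((p : ℝ) ^ e₁ * (3 * (R i₀ : ℝ))) := by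
      refine hABP.trans (mul_le_mul_of_nonneg_left ?_ hAB0)
      rw [← hDC]
      refine hPr.trans ?_
      exact mul_le_mul (Real.rpow_le_rpow_of_exponent_le hp1 hτED) hrN (by linarith) (by positivity)
    have h2 : (p : ℝ) ^ (1 + e₁) * (3 * (p : ℝ) ^ e₁) ≤ (p : ℝ) ^ (1 + ε) := by
      calc (p : ℝ) ^ (1 + e₁) * (3 * (p : ℝ) ^ e₁)
          ≤ (p : ℝ) ^ (1 + e₁) * ((p : ℝ) ^ (2 * e₁) * (p : ℝ) ^ e₁) :=
            mul_le_mul_of_nonneg_left (mul_le_mul_of_nonneg_right hP2'.le (by positivity))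
              (by positivity)
        _ = (p : ℝ) ^ (1 + 4 * e₁) := by
            rw [← Real.rpow_add hp0, ← Real.rpow_add hp0]
            congr 1
            ring
        _ ≤ _ := Real.rpow_le_rpow_of_exponent_le hp1 (by linarith)
    have h3 : (p : ℝ) ^ (1 + e₁) * (3 * (p : ℝ) ^ e₁) ≤
        (A.card * B.card * (R i₀ : ℝ)) * (3 * (p : ℝ) ^ e₁) := by
      refine h2.trans (h1.trans (le_of_eq ?_))
      ring
    exact le_of_mul_le_mul_right h3 (by positivity)
  have hfin := hhalf p (by omega) χ hχ A B (v i₀) (R i₀) hz hN1 hgrow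
    ((Real.rpow_le_rpow_of_exponent_le hp1 (by linarith)).trans hBε) hsize f g
  refine hfin.trans (mul_le_mul_of_nonneg_right ?_ (by positivity))
  apply Real.rpow_le_rpow_of_exponent_le hp1
  nlinarith

end Pool.Agent.V1121.PG
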