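import Pool.Agent.V1121.PG.Master

/-! The parameters: an explicit inequality. -/

set_option autoImplicit false
set_option maxHeartbeats 4000000

open Finset
open scoped Pointwise

namespace Pool.Agent.V1121.PG

open Pool.Agent.W27.SD Pool.Agent.W27.BG

/-- every nonprincipal character has few bad shifts, explicit form -/
theorem weil_num {p : ℕ} [Fact p.Prime] (κ ε : ℝ) (hκ : 0 < κ) (hκε : κ ≤ ε / 32)
    (hε' : ε ≤ 1 / 8) (k : ℕ) (hk1 : 1 ≤ k) (hκk : 1 ≤ κ * k) (hP1' : 2 < (p : ℝ) ^ κ)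
    (hP2' : 2 ^ k < (p : ℝ) ^ (1 / 2 : ℝ))
    (hP3'' : 2 * ((k : ℝ) ^ (2 * k) * 2 ^ k + 2 * k * 4 ^ k) < (p : ℝ) ^ ε)
    (χ : DirichletCharacter ℂ p) (L : ℕ) [NeZero (2 * L)] (hχ : χ ≠ 1)
    (hLdef : L = ⌊(p : ℝ) ^ κ⌋₊) :
    ((Bad L χ ((L : ℝ) ^ (1 - 1 / (2 * (k : ℝ))))).card : ℝ) ≤ (p : ℝ) ^ (2 * (1 / 4 + ε)) := by
  have hkR : (1 : ℝ) ≤ k := by exact_mod_cast hk1
  obtain ⟨C3, hC3⟩ : ∃ C3 : ℝ, C3 = 2 * ((k : ℝ) ^ (2 * k) * 2 ^ k + 2 * k * 4 ^ k) := ⟨_, rfl⟩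
  have hC30 : 0 ≤ C3 := by rw [hC3]; positivity
  have hP3' : C3 < (p : ℝ) ^ ε := by rw [hC3]; exact hP3''
  have hpn : 2 ≤ p := (Fact.out : p.Prime).two_le
  have hp1 : (1 : ℝ) ≤ p := by exact_mod_cast (by omega : 1 ≤ p)
  have hp0 : (0 : ℝ) < p := by linarith
  have hLle : (L : ℝ) ≤ (p : ℝ) ^ κ := by rw [hLdef]; exact Nat.floor_le (by positivity)
  have hLlt : (p : ℝ) ^ κ < L + 1 := by rw [hLdef]; exact Nat.lt_floor_add_one _
  have hL1R : (1 : ℝ) < L := by linarith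
  have hL1 : 1 ≤ L := by exact_mod_cast hL1R.le
  have hL0 : (0 : ℝ) < L := by linarith
  have hLhalf : (p : ℝ) ^ κ ≤ 2 * L := by linarith
  have hsqrt : Real.sqrt p = (p : ℝ) ^ (1 / 2 : ℝ) := Real.sqrt_eq_rpow _
  have hhalf : (p : ℝ) ^ (1 / 2 : ℝ) * (p : ℝ) ^ (1 / 2 : ℝ) = p := by
    rw [← Real.rpow_add hp0]; norm_num
  have hLk : Real.sqrt p ≤ (L : ℝ) ^ k := by
    have h1 : ((p : ℝ) ^ κ) ^ k ≤ (2 * L : ℝ) ^ k := pow_le_pow_left₀ (by positivity) hLhalf k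
    have h2 : (p : ℝ) ≤ ((p : ℝ) ^ κ) ^ k := by
      rw [← Real.rpow_natCast, ← Real.rpow_mul hp0.le]
      calc (p : ℝ) = (p : ℝ) ^ (1 : ℝ) := (Real.rpow_one _).symm
        _ ≤ _ := Real.rpow_le_rpow_of_exponent_le hp1 hκk
    rw [mul_pow] at h1
    rw [hsqrt]
    have h3 : (p : ℝ) ^ (1 / 2 : ℝ) * (p : ℝ) ^ (1 / 2 : ℝ) ≤ (p : ℝ) ^ (1 / 2 : ℝ) * (L : ℝ) ^ k := by
      rw [hhalf]
      refine (h2.trans h1).trans ?_
      exact mul_le_mul_of_nonneg_right hP2'.le (by positivity)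
    exact le_of_mul_le_mul_left h3 (by positivity)
  have hLp : 2 * L ≤ p := by
    have h1 : (p : ℝ) ^ κ ≤ (p : ℝ) ^ (1 / 2 : ℝ) :=
      Real.rpow_le_rpow_of_exponent_le hp1 (by linarith)
    have h2 : (2 : ℝ) ≤ (p : ℝ) ^ (1 / 2 : ℝ) := by
      have h3 : (2 : ℝ) ≤ 2 ^ k := by
        calc (2 : ℝ) = 2 ^ 1 := (pow_one _).symm
          _ ≤ 2 ^ k := pow_le_pow_right₀ (by norm_num) hk1
      linarith
    have h3 : (2 : ℝ) * L ≤ p := by
      rw [← hhalf]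
      exact mul_le_mul h2 (hLle.trans h1) hL0.le (by positivity)
    exact_mod_cast h3
  have h1 := bad_small L hLp hL1 k hk1 hLk χ hχ
  rw [← hC3] at h1
  refine h1.trans ?_
  have hL2 : (L : ℝ) ^ 2 ≤ (p : ℝ) ^ ε := by
    calc (L : ℝ) ^ 2 ≤ ((p : ℝ) ^ κ) ^ 2 := pow_le_pow_left₀ hL0.le hLle _
      _ = (p : ℝ) ^ (2 * κ) := by
          rw [← Real.rpow_natCast, ← Real.rpow_mul hp0.le]
          congr 1
          push_cast
          ring
      _ ≤ (p : ℝ) ^ ε := Real.rpow_le_rpow_of_exponent_le hp1 (by linarith)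
  calc C3 * ((L : ℝ) ^ 2 * Real.sqrt p) ≤ (p : ℝ) ^ ε * ((p : ℝ) ^ ε * (p : ℝ) ^ (1 / 2 : ℝ)) := by
        rw [hsqrt]
        exact mul_le_mul hP3'.le (mul_le_mul_of_nonneg_right hL2 (by positivity)) (by positivity)
          (by positivity)
    _ = (p : ℝ) ^ (2 * (1 / 4 + ε)) := by
        rw [← Real.rpow_add hp0, ← Real.rpow_add hp0]
        congr 1
        ring


/-- the numerical conditions -/
theorem num_bound (k : ℕ) (hk : 2 ≤ k) :
    2 * ((k : ℝ) ^ (2 * k) * 2 ^ k + 2 * k * 4 ^ k) ≤ (4 * (k : ℝ)) ^ (2 * k) := by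
  have hkR : (2 : ℝ) ≤ k := by exact_mod_cast hk
  have e1 : (4 * (k : ℝ)) ^ (2 * k) = 16 ^ k * (k : ℝ) ^ (2 * k) := by
    rw [mul_pow, pow_mul]
    norm_num
  have h8 : (4 : ℝ) ≤ 8 ^ k := by
    calc (4 : ℝ) ≤ 8 ^ 1 := by norm_num
      _ ≤ 8 ^ k := pow_le_pow_right₀ (by norm_num) (by omega)
  have h4 : (8 : ℝ) ≤ 4 ^ k := by
    calc (8 : ℝ) ≤ 4 ^ 2 := by norm_num
      _ ≤ 4 ^ k := pow_le_pow_right₀ (by norm_num) hk
  have hkk : (k : ℝ) ≤ (k : ℝ) ^ (2 * k) := by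
    calc (k : ℝ) = (k : ℝ) ^ 1 := (pow_one _).symm
      _ ≤ (k : ℝ) ^ (2 * k) := pow_le_pow_right₀ (by linarith) (by omega)
  have h16 : (16 : ℝ) ^ k = 8 ^ k * 2 ^ k := by rw [← mul_pow]; norm_num
  have h16' : (16 : ℝ) ^ k = 4 ^ k * 4 ^ k := by rw [← mul_pow]; norm_num
  have hq : (0 : ℝ) < (k : ℝ) ^ (2 * k) := by positivity
  have t1 : 4 * ((k : ℝ) ^ (2 * k) * 2 ^ k) ≤ 16 ^ k * (k : ℝ) ^ (2 * k) := by
    rw [h16]
    have : 0 ≤ (2 : ℝ) ^ k * (k : ℝ) ^ (2 * k) := by positivity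
    nlinarith
  have t2 : 8 * (k * 4 ^ k) ≤ 16 ^ k * (k : ℝ) ^ (2 * k) := by
    rw [h16']
    have h1 : (8 : ℝ) * k ≤ 4 ^ k * (k : ℝ) ^ (2 * k) :=
      mul_le_mul h4 hkk (by positivity) (by positivity)
    have h2 : (0 : ℝ) ≤ 4 ^ k := by positivity
    nlinarith
  rw [e1]
  linarith

/-- the explicit inequality for two sets covered by translates of one progression -/
theorem explicit_form {p : ℕ} [Fact p.Prime] (ε : ℝ) (hε0 : 0 < ε) (hε : ε ≤ 1 / 20) (D : ℕ)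
    (hD1 : 1 ≤ D) (C : ℝ) (hC1 : 1 ≤ C) (G : ℝ)
    (hG : G = ε ^ 2 * Real.log p / (1024 * ((D : ℝ) + 1) ^ 4))
    (hH : (8 + Real.log (64 / ε)) * (1 + Real.log C + D * Real.log (51 * D)) ≤ G)
    (χ : DirichletCharacter ℂ p) (hχ : χ ≠ 1)
    (B : Finset (ZMod p)) (hBδ : (p : ℝ) ^ (1 / 4 + 5 * ε) < B.card)
    {k : ℕ} (v : Fin k → ZMod p) (R : Fin k → ℕ) (T : Finset (ZMod p)) (hkD : k ≤ D)
    (hprop : ∀ y : Fin k → ℤ, (∀ i, |y i| ≤ R i) → lin v y = 0 → y = 0)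
    (hvol : (∏ i, (2 * (R i : ℝ) + 1)) ≤ C * B.card) (hT : (T.card : ℝ) ≤ C)
    (hcov : ∀ a ∈ B, ∃ t ∈ T, ∃ c : Fin k → ℤ, (∀ i, |c i| ≤ R i) ∧ a = t + lin v c)
    (X₁ X₂ A₁ A₂ : Finset (ZMod p))
    (hAX₁ : ∀ a ∈ A₁, ∃ x ∈ X₁, ∃ b ∈ B, ∃ b' ∈ B, a = x + (b - b'))
    (hAX₂ : ∀ a ∈ A₂, ∃ x ∈ X₂, ∃ b ∈ B, ∃ b' ∈ B, a = x + (b - b')) (f g : ZMod p → ℂ) :
    ‖∑ a ∈ A₁, ∑ b ∈ A₂, f a * g b * χ (a - b)‖
      ≤ Real.exp (-(G / 2)) * B.card
        * ((X₂.card * ∑ a ∈ A₁, ‖f a‖ ^ 2 + X₁.card * ∑ b ∈ A₂, ‖g b‖ ^ 2) / 2) := by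
  have hDR : (1 : ℝ) ≤ D := by exact_mod_cast hD1
  have hp1n : 1 < p := (Fact.out : p.Prime).one_lt
  have hp1' : (1 : ℝ) < p := by exact_mod_cast hp1n
  have hp0 : (0 : ℝ) < p := by linarith
  obtain ⟨l, hl⟩ : ∃ l : ℝ, l = Real.log p := ⟨_, rfl⟩
  have hl0 : 0 < l := by rw [hl]; exact Real.log_pos hp1'
  have hrp : ∀ b : ℝ, (p : ℝ) ^ b = Real.exp (b * l) := by
    intro b
    rw [Real.rpow_def_of_pos hp0, hl, mul_comm]
  obtain ⟨κ, hκdef⟩ : ∃ κ : ℝ, κ = ε / (8 * ((D : ℝ) + 1) ^ 2) := ⟨_, rfl⟩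
  have hκ0 : 0 < κ := by rw [hκdef]; positivity
  have hκε : κ * (8 * ((D : ℝ) + 1) ^ 2) = ε := by rw [hκdef]; field_simp
  have hκle : κ ≤ ε / 32 := by
    have h1 : (32 : ℝ) ≤ 8 * ((D : ℝ) + 1) ^ 2 := by nlinarith
    have h2 : κ * 32 ≤ κ * (8 * ((D : ℝ) + 1) ^ 2) := mul_le_mul_of_nonneg_left h1 hκ0.le
    linarith
  have hκ1 : κ ≤ 1 / 640 := by linarith
  have hGκ : G = κ ^ 2 * l / 16 := by
    rw [hG, hκdef, hl]
    field_simp
    ring
  have hG1 : 16 * G ≤ κ * l := by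
    rw [hGκ]
    nlinarith [mul_pos hκ0 hl0]
  -- the integer k0
  obtain ⟨k0, hk0⟩ : ∃ k0 : ℕ, k0 = ⌈1 / κ⌉₊ := ⟨_, rfl⟩
  have hk0a : 1 / κ ≤ k0 := by rw [hk0]; exact Nat.le_ceil _
  have hk0b : (k0 : ℝ) < 1 / κ + 1 := by rw [hk0]; exact Nat.ceil_lt_add_one (by positivity)
  have hik : (640 : ℝ) ≤ 1 / κ := by
    rw [le_div_iff₀ hκ0]; linarith
  have hk0c : (k0 : ℝ) ≤ 2 / κ := by
    have : 2 / κ = 1 / κ + 1 / κ := by ring
    linarith
  have hk0R : (640 : ℝ) ≤ k0 := hik.trans hk0a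
  have hk02 : 2 ≤ k0 := by
    have : (2 : ℝ) ≤ k0 := by linarith
    exact_mod_cast this
  have hk01 : 1 ≤ k0 := by omega
  have hk00 : (0 : ℝ) < k0 := by linarith
  have hκk : 1 ≤ κ * k0 := by
    rw [div_le_iff₀ hκ0] at hk0a
    linarith
  have hκk2 : κ * k0 ≤ 2 := by
    rw [le_div_iff₀ hκ0] at hk0c
    linarith
  have hGη : G ≤ κ / (8 * k0) * l := by
    rw [hGκ, div_mul_eq_mul_div, le_div_iff₀ (by positivity)]
    have h1 : κ ^ 2 * l / 16 * (8 * k0) = (κ * k0) * (κ * l) / 2 := by ring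
    rw [h1]
    nlinarith [mul_pos hκ0 hl0]
  -- the quantities
  obtain ⟨a, ha⟩ : ∃ a : ℝ, a = D * Real.log (51 * D) := ⟨_, rfl⟩
  have h51 : (51 : ℝ) ≤ 51 * D := by linarith
  have hlog51 : 1 ≤ Real.log (51 * D) := by
    rw [Real.le_log_iff_exp_le (by linarith)]
    have := Real.exp_one_lt_d9
    linarith
  have ha1 : Real.log (51 * D) ≤ a := by
    rw [ha]
    nlinarith
  have ha2 : 1 ≤ a := hlog51.trans ha1
  have hlC : 0 ≤ Real.log C := Real.log_nonneg hC1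
  obtain ⟨M, hM⟩ : ∃ M : ℝ, M = 8 + Real.log (64 / ε) := ⟨_, rfl⟩
  have hM8 : 8 ≤ M := by
    rw [hM]
    have : 0 ≤ Real.log (64 / ε) := by
      apply Real.log_nonneg
      rw [le_div_iff₀ hε0]
      linarith
    linarith
  obtain ⟨X, hX⟩ : ∃ X : ℝ, X = 1 + Real.log C + a := ⟨_, rfl⟩
  have hX1 : 1 ≤ X := by linarith
  have hMX : M * X ≤ G := by rw [hM, hX, ha]; exact hH
  have h8X : 8 * X ≤ G := (mul_le_mul_of_nonneg_right hM8 (by linarith)).trans hMX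
  have hMG : M ≤ G := by nlinarith
  have hGε : 16 * G ≤ ε * l := by
    have h1 : κ * l ≤ ε * l := mul_le_mul_of_nonneg_right (by linarith) hl0.le
    linarith
  have hwe : ((51 : ℝ) * D) ^ D = Real.exp a := by
    rw [ha, ← Real.log_pow, Real.exp_log (by positivity)]
  have hw51 : (51 : ℝ) ≤ Real.exp a := by
    rw [← hwe]
    calc (51 : ℝ) ≤ 51 * D := h51
      _ = (51 * (D : ℝ)) ^ 1 := (pow_one _).symm
      _ ≤ _ := pow_le_pow_right₀ (by linarith) hD1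
  have hsmall : ∀ c : ℝ, 0 ≤ c → c ≤ 51 → c ^ D ≤ Real.exp a := by
    intro c hc0 hc
    rw [← hwe]
    exact pow_le_pow_left₀ hc0 (by linarith) D
  have hQ1 : 48 * (D : ℝ) + 1 < (p : ℝ) ^ κ := by
    rw [hrp]
    calc 48 * (D : ℝ) + 1 ≤ 51 * D := by linarith
      _ = Real.exp (Real.log (51 * D)) := (Real.exp_log (by linarith)).symm
      _ < Real.exp (κ * l) := Real.exp_lt_exp.2 (by linarith)
  have hQ3 : ((2 * D).factorial : ℝ) * 64 ^ D < (p : ℝ) ^ (2 * ε) := by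
    rw [hrp]
    have h1 : ((2 * D).factorial : ℝ) ≤ (2 * (D : ℝ)) ^ (2 * D) := by
      have := Nat.factorial_le_pow (2 * D)
      have h2 : (((2 * D).factorial : ℕ) : ℝ) ≤ (((2 * D) ^ (2 * D) : ℕ) : ℝ) := by exact_mod_cast this
      push_cast at h2
      exact h2
    calc ((2 * D).factorial : ℝ) * 64 ^ D ≤ (2 * (D : ℝ)) ^ (2 * D) * 64 ^ D :=
          mul_le_mul_of_nonneg_right h1 (by positivity)
      _ = (16 * (D : ℝ)) ^ (2 * D) := by
          have : (64 : ℝ) ^ D = 8 ^ (2 * D) := by rw [pow_mul]; norm_num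
          rw [this, ← mul_pow]
          congr 1
          ring
      _ ≤ (51 * (D : ℝ)) ^ (2 * D) := pow_le_pow_left₀ (by positivity) (by linarith) _
      _ = Real.exp a ^ 2 := by rw [← hwe, ← pow_mul, mul_comm D 2]
      _ = Real.exp (2 * a) := by rw [← Real.exp_nat_mul]; norm_num
      _ < Real.exp (2 * ε * l) := Real.exp_lt_exp.2 (by linarith)
  have hlog2 : Real.log 2 < 1 := by
    have := Real.log_two_lt_d9
    linarith
  have hQ4 : 2 < (p : ℝ) ^ (κ / 2) := by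
    rw [hrp]
    calc (2 : ℝ) = Real.exp (Real.log 2) := (Real.exp_log (by norm_num)).symm
      _ < Real.exp (κ / 2 * l) := Real.exp_lt_exp.2 (by linarith)
  have hQ5 : 5 ^ D + 2 ^ D * (51 * (D : ℝ)) ^ (2 * D) + 2 ^ D < (p : ℝ) ^ (κ / (8 * k0)) := by
    rw [hrp]
    have e1 : (51 * (D : ℝ)) ^ (2 * D) = Real.exp a ^ 2 := by rw [← hwe, ← pow_mul, mul_comm D 2]
    rw [e1]
    have h5 := hsmall 5 (by norm_num) (by norm_num)
    have h2 := hsmall 2 (by norm_num) (by norm_num)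
    set w := Real.exp a with hw
    have hw0 : 0 < w := Real.exp_pos _
    calc 5 ^ D + 2 ^ D * w ^ 2 + 2 ^ D ≤ w + w * w ^ 2 + w := by
          have := mul_le_mul_of_nonneg_right h2 (by positivity : 0 ≤ w ^ 2)
          linarith
      _ ≤ w ^ 4 := by
          have h1 : 51 * w ≤ w * w := mul_le_mul_of_nonneg_right hw51 hw0.le
          have h3 : 51 * w ^ 3 ≤ w ^ 4 := by
            have : w ^ 4 = w * w ^ 3 := by ring
            rw [this]
            exact mul_le_mul_of_nonneg_right hw51 (by positivity)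
          have h4 : w ≤ w ^ 3 := by
            have : w ^ 3 = w ^ 2 * w := by ring
            rw [this]
            nlinarith
          nlinarith
      _ = Real.exp (4 * a) := by rw [hw, ← Real.exp_nat_mul]; norm_num
      _ < Real.exp (κ / (8 * k0) * l) := Real.exp_lt_exp.2 (by linarith)
  have hP1' : C * 3 ^ D < (p : ℝ) ^ (2 * ε) := by
    rw [hrp]
    calc C * 3 ^ D ≤ Real.exp (Real.log C) * Real.exp a := by
          rw [Real.exp_log (by linarith)]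
          exact mul_le_mul_of_nonneg_left (hsmall 3 (by norm_num) (by norm_num)) (by linarith)
      _ = Real.exp (Real.log C + a) := by rw [Real.exp_add]
      _ < Real.exp (2 * ε * l) := Real.exp_lt_exp.2 (by linarith)
  have hP2' : 2 ^ D < (p : ℝ) ^ (2 * ε) := by
    rw [hrp]
    calc (2 : ℝ) ^ D ≤ Real.exp a := hsmall 2 (by norm_num) (by norm_num)
      _ < Real.exp (2 * ε * l) := Real.exp_lt_exp.2 (by linarith)
  -- Weil's bound
  have hW1 : 2 < (p : ℝ) ^ κ := by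
    refine hQ4.trans_le ?_
    exact Real.rpow_le_rpow_of_exponent_le hp1'.le (by linarith)
  have hl16 : l = 16 * G / κ ^ 2 := by
    rw [hGκ]
    field_simp
  have hW2 : 2 ^ k0 < (p : ℝ) ^ (1 / 2 : ℝ) := by
    rw [hrp]
    calc (2 : ℝ) ^ k0 = Real.exp (k0 * Real.log 2) := by
          rw [← Real.log_pow, Real.exp_log (by positivity)]
      _ < Real.exp (1 / 2 * l) := by
          apply Real.exp_lt_exp.2
          have h1 : (k0 : ℝ) * Real.log 2 ≤ k0 * 1 :=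
            mul_le_mul_of_nonneg_left hlog2.le hk00.le
          have h2 : κ * (k0 : ℝ) * 1 < κ * (1 / 2 * l) := by linarith
          have h3 : (k0 : ℝ) < 1 / 2 * l := by
            have h4 : κ * (k0 : ℝ) < κ * (1 / 2 * l) := by linarith
            exact lt_of_mul_lt_mul_left h4 hκ0.le
          linarith
  have hW3 : 2 * ((k0 : ℝ) ^ (2 * k0) * 2 ^ k0 + 2 * k0 * 4 ^ k0) < (p : ℝ) ^ ε := by
    refine (num_bound k0 hk02).trans_lt ?_
    rw [hrp]
    calc (4 * (k0 : ℝ)) ^ (2 * k0) = Real.exp ((2 * k0 : ℕ) * Real.log (4 * k0)) := by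
          rw [← Real.log_pow, Real.exp_log (by positivity)]
      _ < Real.exp (ε * l) := by
          apply Real.exp_lt_exp.2
          push_cast
          have h1 : Real.log (4 * k0) ≤ 2 * G := by
            have h2 : 4 * (k0 : ℝ) ≤ (64 / ε) * ((D : ℝ) + 1) ^ 2 := by
              calc 4 * (k0 : ℝ) ≤ 4 * (2 / κ) := by linarith
                _ = (64 / ε) * ((D : ℝ) + 1) ^ 2 := by
                    rw [hκdef]
                    field_simp
                    ring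
            have h3 : Real.log (4 * k0) ≤ Real.log ((64 / ε) * ((D : ℝ) + 1) ^ 2) :=
              Real.log_le_log (by positivity) h2
            have h3' : Real.log ((64 / ε) * ((D : ℝ) + 1) ^ 2) =
                Real.log (64 / ε) + 2 * Real.log ((D : ℝ) + 1) := by
              rw [Real.log_mul (by positivity) (by positivity), Real.log_pow]
              norm_num
            rw [h3'] at h3
            have h4 : Real.log ((D : ℝ) + 1) ≤ Real.log (51 * D) :=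
              Real.log_le_log (by positivity) (by linarith)
            linarith
          -- multiply by κ²
          have h5 : κ ^ 2 * (2 * (k0 : ℝ) * Real.log (4 * k0)) < κ ^ 2 * (ε * l) := by
            have h6 : κ ^ 2 * (ε * l) = 16 * ε * G := by
              rw [hGκ]
              ring
            rw [h6]
            have h7 : κ ^ 2 * (2 * (k0 : ℝ) * Real.log (4 * k0))
                = 2 * κ * ((κ * k0) * Real.log (4 * k0)) := by ring
            rw [h7]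
            have hlk : 0 ≤ Real.log (4 * k0) := Real.log_nonneg (by linarith)
            have h8 : (κ * k0) * Real.log (4 * k0) ≤ 2 * (2 * G) :=
              mul_le_mul hκk2 h1 hlk (by norm_num)
            have hG0 : 0 < G := by linarith
            calc 2 * κ * ((κ * k0) * Real.log (4 * k0)) ≤ 2 * κ * (2 * (2 * G)) :=
                  mul_le_mul_of_nonneg_left h8 (by positivity)
              _ ≤ 2 * (ε / 32) * (2 * (2 * G)) := by
                  apply mul_le_mul_of_nonneg_right _ (by positivity)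
                  linarith
              _ < 16 * ε * G := by
                  have := mul_pos hε0 hG0
                  nlinarith
          exact lt_of_mul_lt_mul_left h5 (by positivity)
  have hL1 : 1 ≤ ⌊(p : ℝ) ^ κ⌋₊ := Nat.le_floor (by
    rw [Nat.cast_one]
    linarith)
  have : NeZero (2 * ⌊(p : ℝ) ^ κ⌋₊) := ⟨by omega⟩
  have hbad := weil_num κ ε hκ0 hκle (by linarith) k0 hk01 hκk hW1 hW2 hW3 χ _ hχ rfl
  have h1 := master_num D hD1 (1 / 4 + ε) ε κ C (by linarith) hε0 (by linarith) (by linarith) hC1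
    hκ0 hκε k0 hk01 hQ1 hQ3 hQ4 hQ5 hP1' hP2' χ _ rfl hbad B (by
      rw [show (1 : ℝ) / 4 + ε + 4 * ε = 1 / 4 + 5 * ε by ring]
      exact hBδ) v R T hkD hprop hvol hT hcov X₁ X₂ A₁ A₂ hAX₁ hAX₂ f g
  refine h1.trans ?_
  have hS : 0 ≤ (X₂.card * ∑ a ∈ A₁, ‖f a‖ ^ 2 + X₁.card * ∑ b ∈ A₂, ‖g b‖ ^ 2) / 2 := by
    have h1 : 0 ≤ ∑ a ∈ A₁, ‖f a‖ ^ 2 := Finset.sum_nonneg fun _ _ => by positivity
    have h2 : 0 ≤ ∑ b ∈ A₂, ‖g b‖ ^ 2 := Finset.sum_nonneg fun _ _ => by positivity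
    exact div_nonneg (add_nonneg (mul_nonneg (Nat.cast_nonneg _) h1)
      (mul_nonneg (Nat.cast_nonneg _) h2)) (by norm_num)
  refine mul_le_mul_of_nonneg_right (mul_le_mul_of_nonneg_right ?_ (Nat.cast_nonneg _)) hS
  rw [hrp]
  have hCe : C * C * (5 ^ D * C) ≤ Real.exp (3 * Real.log C + a) := by
    rw [Real.exp_add]
    have e3 : Real.exp (3 * Real.log C) = C * C * C := by
      rw [show (3 : ℝ) * Real.log C = ((3 : ℕ) : ℝ) * Real.log C by norm_num, Real.exp_nat_mul,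
        Real.exp_log (by linarith)]
      ring
    rw [e3]
    calc C * C * (5 ^ D * C) = C * C * C * 5 ^ D := by ring
      _ ≤ C * C * C * Real.exp a :=
          mul_le_mul_of_nonneg_left (hsmall 5 (by norm_num) (by norm_num)) (by positivity)
  calc Real.exp (-(κ / (8 * k0)) * l) * (C * C * (5 ^ D * C))
      ≤ Real.exp (-(κ / (8 * k0)) * l) * Real.exp (3 * Real.log C + a) :=
        mul_le_mul_of_nonneg_left hCe (Real.exp_pos _).le
    _ = Real.exp (-(κ / (8 * k0)) * l + (3 * Real.log C + a)) := by rw [← Real.exp_add]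
    _ ≤ Real.exp (-(G / 2)) := by
        apply Real.exp_le_exp.2
        have : -(κ / (8 * k0)) * l = -(κ / (8 * k0) * l) := by ring
        rw [this]
        linarith

end Pool.Agent.V1121.PG
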