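import Pool.Agent.Y940.PA.Fin
import Pool.Agent.V1121.PF.IterGap
import Pool.Agent.V1121.PF.Coset

/-! Sets with few points on arithmetic progressions have few points in sets of polynomial growth
(the argument of `Pool.Agent.Y56.LW`, `Pool.Agent.Y940.PA` with iterated sumsets). -/

set_option autoImplicit false
set_option maxHeartbeats 4000000

namespace Pool.Agent.V1121.PG

open Finset Pool.Agent.TH513.IS
open Pool.Agent.Y940.PA (chooseL)
open scoped Pointwise

open Classical in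
/-- the main estimate -/
theorem main_iter {G : Type*} [AddCommGroup G] [DecidableEq G]
    (htf : ∀ (n : ℕ) (x : G), n ≠ 0 → n • x = 0 → x = 0)
    (H Z : Set G) (hH : ∀ (L : ℕ) (x : G), x ∈ H → L • x ∈ H) (D c : ℝ) (hD : 0 ≤ D)
    (hc : 0 ≤ c) (hc1 : c ≤ 1)
    {r n₀ : ℕ} (hr : 1 ≤ r) (hn₀ : 2 ≤ n₀) {K : ℝ} (A B : Finset G)
    (hAP : ∀ x θ : G, θ ∉ H → ∀ L : ℕ, 1 ≤ L → L ≤ A.card →
      (((range L).filter (fun j : ℕ => x + j • θ ∈ Z)).card : ℝ) ≤ D * L * (L:ℝ) ^ (-c))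
    (hA : A.Nonempty) (hK : ((sm A n₀).card : ℝ) ≤ K * A.card)
    (hrn : Real.log (2 * K) ≤ (n₀ : ℝ) ^ r)
    (hBA : B ⊆ A) (hBZ : ∀ b ∈ B, b ∈ Z) (hBH : ∀ b ∈ B, ∀ b' ∈ B, b ≠ b' → b - b' ∉ H) :
    (B.card : ℝ) ≤ (1 + 2 * D) * (2 * K) ^ (116000 * r) *
      (A.card : ℝ) ^ (1 - c / (842 * (1 + Real.log (2 * K) / Real.log n₀))) := by
  have hAc : 1 ≤ A.card := hA.card_pos
  have hAr : (1:ℝ) ≤ A.card := by exact_mod_cast hAc
  have hK1 : 1 ≤ K := V1121.PF.one_le_of_card (by omega) hA hK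
  have hK2 : (2:ℝ) ≤ 2 * K := by linarith
  have hκ2 : Real.log 2 ≤ Real.log (2 * K) := Real.log_le_log (by norm_num) hK2
  have hl2 := Real.log_two_gt_d9
  obtain ⟨k, v, N, T, hk, hN, hprop, hvol, hT, hcov⟩ :=
    V1121.PF.iterated_gap' htf hr hn₀ hA hK hrn
  set κ := Real.log (2 * K) with hκ
  have hκ0 : (0:ℝ) < κ := by linarith
  have hn₀R : (2 : ℝ) ≤ n₀ := by exact_mod_cast hn₀
  have hrR : (1 : ℝ) ≤ r := by exact_mod_cast hr
  have hln : Real.log 2 ≤ Real.log n₀ := Real.log_le_log (by norm_num) hn₀R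
  have hln0 : 0 < Real.log n₀ := by linarith
  obtain ⟨x, hx⟩ : ∃ x : ℝ, x = 1 + κ / Real.log n₀ := ⟨_, rfl⟩
  rw [← hx] at hk ⊢
  have hx1 : 1 ≤ x := by
    rw [hx]
    have : 0 ≤ κ / Real.log n₀ := by positivity
    linarith
  have hx2 : x ≤ 2.9 * κ := by
    have h1 : κ / Real.log n₀ ≤ 1.45 * κ := by
      rw [div_le_iff₀ hln0]
      have h2 : κ * 1 ≤ κ * (1.45 * Real.log n₀) := mul_le_mul_of_nonneg_left (by linarith) hκ0.le
      linarith
    rw [hx]
    linarith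
  obtain ⟨L, hL1, hLA, hLk, hLc⟩ := chooseL A.card k hAc c hc hc1
  have hLr : (1:ℝ) ≤ L := by exact_mod_cast hL1
  -- the representation
  have hrep : ∀ b : G, ∃ t : G, ∃ n : Fin k → ℤ, b ∈ B → (t ∈ T ∧ (∀ i, 0 ≤ n i ∧ n i < N i) ∧
      b = t + ∑ i, n i • v i) := by
    intro b
    by_cases hb : b ∈ B
    · obtain ⟨t, ht, n, hn, hb2⟩ := hcov b (hBA hb)
      refine ⟨t, fun i => (n i : ℤ), fun _ => ⟨ht, fun i => ⟨by positivity, ?_⟩, ?_⟩⟩
      · have h5 := hn i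
        show (n i : ℤ) < N i
        exact_mod_cast h5
      · rw [hb2]
        congr 1
        apply Finset.sum_congr rfl
        intro i _
        rw [natCast_zsmul]
    · exact ⟨b, 0, fun h => absurd h hb⟩
  choose τ ν hτν using hrep
  -- each translate
  have hδ : (0:ℝ) ≤ D * (L:ℝ) ^ (-c) := by positivity
  have hEt : ∀ t ∈ T, ((B.filter (fun b => τ b = t)).card : ℝ) ≤
      (L : ℝ) ^ k + 3 ^ k * (∏ i, (N i : ℝ)) * (D * (L:ℝ) ^ (-c)) := by
    intro t _
    set Bt := B.filter (fun b => τ b = t) with hBt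
    have hmem : ∀ b ∈ Bt, b ∈ B ∧ τ b = t := fun b hb => Finset.mem_filter.1 hb
    have hinj : Set.InjOn ν (Bt : Set G) := by
      intro b hb b' hb' h
      obtain ⟨h1, h2⟩ := hmem b hb
      obtain ⟨h1', h2'⟩ := hmem b' hb'
      rw [(hτν b h1).2.2, (hτν b' h1').2.2, h2, h2', h]
    have hcardE : (Bt.image ν).card = Bt.card := Finset.card_image_of_injOn hinj
    rw [← hcardE]
    apply Pool.Agent.Y56.LW.grid k N (Bt.image ν) _ L hL1 (D * (L:ℝ) ^ (-c)) hδ
    · intro n hn n' hn' hne w hw y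
      obtain ⟨b, hb, rfl⟩ := Finset.mem_image.1 hn
      obtain ⟨b', hb', rfl⟩ := Finset.mem_image.1 hn'
      obtain ⟨h1, h2⟩ := hmem b hb
      obtain ⟨h1', h2'⟩ := hmem b' hb'
      have hbb : b ≠ b' := fun h => hne (by rw [h])
      set θ : G := ∑ i, w i • v i with hθ
      have hLθ : L • θ = b - b' := by
        rw [(hτν b h1).2.2, (hτν b' h1').2.2, h2, h2', hθ, add_sub_add_left_eq_sub,
          ← Finset.sum_sub_distrib, Finset.smul_sum]
        apply Finset.sum_congr rfl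
        intro i _
        rw [← sub_smul, ← hw i, mul_smul, natCast_zsmul]
      have hθH : θ ∉ H := by
        intro h
        apply hBH b h1 b' h1' hbb
        rw [← hLθ]
        exact hH L θ h
      have h3 := hAP (t + ∑ i, y i • v i) θ hθH L hL1 hLA
      have h4 : ((range L).filter (fun j : ℕ => (fun i => y i + (j : ℤ) * w i) ∈ Bt.image ν)).card ≤
          ((range L).filter (fun j : ℕ => (t + ∑ i, y i • v i) + j • θ ∈ Z)).card := by
        apply Finset.card_le_card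
        intro j hj
        rw [Finset.mem_filter] at hj ⊢
        refine ⟨hj.1, ?_⟩
        obtain ⟨e, he, he2⟩ := Finset.mem_image.1 hj.2
        obtain ⟨h5, h6⟩ := hmem e he
        have h7 : (t + ∑ i, y i • v i) + j • θ = e := by
          rw [(hτν e h5).2.2, h6, he2, hθ, Finset.smul_sum, add_assoc, ← Finset.sum_add_distrib]
          congr 1
          apply Finset.sum_congr rfl
          intro i _
          rw [add_smul, mul_smul, natCast_zsmul]
        rw [h7]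
        exact hBZ e h5
      have h5 : (((range L).filter (fun j : ℕ => (fun i => y i + (j : ℤ) * w i) ∈
          Bt.image ν)).card : ℝ) ≤ D * L * (L:ℝ) ^ (-c) := by
        refine le_trans ?_ h3
        exact_mod_cast h4
      calc _ ≤ D * L * (L:ℝ) ^ (-c) := h5
        _ = (D * (L:ℝ) ^ (-c)) * L := by ring
    · intro n hn
      obtain ⟨b, hb, rfl⟩ := Finset.mem_image.1 hn
      exact (hτν b (hmem b hb).1).2.1
  -- sum over the translates
  have hsum : (B.card : ℝ) ≤ T.card *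
      ((L : ℝ) ^ k + 3 ^ k * (∏ i, (N i : ℝ)) * (D * (L:ℝ) ^ (-c))) := by
    have h1 : B.card = ∑ t ∈ T, (B.filter (fun b => τ b = t)).card :=
      Finset.card_eq_sum_card_fiberwise (fun b hb => (hτν b hb).1)
    rw [h1]
    push_cast
    calc ∑ t ∈ T, ((B.filter (fun b => τ b = t)).card : ℝ) ≤
        ∑ _t ∈ T, ((L : ℝ) ^ k + 3 ^ k * (∏ i, (N i : ℝ)) * (D * (L:ℝ) ^ (-c))) :=
          Finset.sum_le_sum hEt
      _ = _ := by rw [Finset.sum_const, nsmul_eq_mul]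
  have hvolr : (∏ i, (N i : ℝ)) ≤ A.card := by
    have : ((∏ i, N i : ℕ) : ℝ) ≤ A.card := by exact_mod_cast hvol
    rwa [Nat.cast_prod] at this
  set s : ℝ := c / (2 * ((k:ℝ) + 1)) with hs
  have hA0 : (0:ℝ) < A.card := by linarith
  have h3k1 : (1:ℝ) ≤ 3 ^ k := one_le_pow₀ (by norm_num)
  have hin : (L : ℝ) ^ k + 3 ^ k * (∏ i, (N i : ℝ)) * (D * (L:ℝ) ^ (-c)) ≤
      3 ^ k * (1 + 2 * D) * (A.card : ℝ) ^ (1 - s) := by
    have h1 : (A.card : ℝ) ^ (1 - s) = A.card * (A.card : ℝ) ^ (-s) := by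
      rw [sub_eq_add_neg, Real.rpow_add hA0, Real.rpow_one]
    have h2 : 3 ^ k * (∏ i, (N i : ℝ)) * (D * (L:ℝ) ^ (-c)) ≤
        3 ^ k * A.card * (D * (2 * (A.card : ℝ) ^ (-s))) := by
      gcongr
    have h4 : 0 ≤ (A.card : ℝ) ^ (1 - s) := by positivity
    have h5 : (A.card : ℝ) ^ (1 - s) ≤ 3 ^ k * (A.card : ℝ) ^ (1 - s) := by
      nlinarith
    calc (L : ℝ) ^ k + 3 ^ k * (∏ i, (N i : ℝ)) * (D * (L:ℝ) ^ (-c)) ≤
        (A.card : ℝ) ^ (1 - s) + 3 ^ k * A.card * (D * (2 * (A.card : ℝ) ^ (-s))) :=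
          add_le_add hLk h2
      _ = (A.card : ℝ) ^ (1 - s) + 3 ^ k * (2 * D) * (A.card : ℝ) ^ (1 - s) := by
          rw [h1]; ring
      _ ≤ 3 ^ k * (A.card : ℝ) ^ (1 - s) + 3 ^ k * (2 * D) * (A.card : ℝ) ^ (1 - s) := by
          linarith
      _ = _ := by ring
  have hk1 : (k:ℝ) + 1 ≤ 421 * x := by linarith
  have hsle : c / (842 * x) ≤ s := by
    rw [hs]
    apply div_le_div_of_nonneg_left hc (by positivity)
    linarith
  have hpow : (A.card : ℝ) ^ (1 - s) ≤ (A.card : ℝ) ^ (1 - c / (842 * x)) :=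
    Real.rpow_le_rpow_of_exponent_le hAr (by linarith)
  have h2K0 : (0:ℝ) < 2 * K := by linarith
  have h3k : (3:ℝ) ^ k ≤ (2 * K) ^ (3000 * r) := by
    have h1 : (3:ℝ) ^ k = Real.exp (k * Real.log 3) := by
      rw [mul_comm, Real.exp_mul, Real.exp_log (by norm_num), Real.rpow_natCast]
    have h2 : (2 * K) ^ (3000 * r) = Real.exp ((3000 * r : ℕ) * κ) := by
      rw [hκ, ← Real.log_pow, Real.exp_log (by positivity)]
    rw [h1, h2]
    apply Real.exp_le_exp.2
    have h3 : Real.log 3 ≤ 5/3 := by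
      rw [Real.log_le_iff_le_exp (by norm_num)]
      have h5 : (0:ℝ) ≤ 5/3 := by norm_num
      have := Real.quadratic_le_exp_of_nonneg h5
      norm_num at this ⊢
      linarith
    have h4 : (0:ℝ) ≤ Real.log 3 := Real.log_nonneg (by norm_num)
    have h6 : κ ≤ r * κ := by nlinarith
    calc (k:ℝ) * Real.log 3 ≤ (420 * x) * (5/3) := by gcongr
      _ ≤ 3000 * (r * κ) := by linarith
      _ = _ := by push_cast; ring
  have hcomb : (T.card : ℝ) * 3 ^ k ≤ (2 * K) ^ (116000 * r) := by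
    calc (T.card : ℝ) * 3 ^ k ≤ (2 * K) ^ (113000 * r) * (2 * K) ^ (3000 * r) := by
          gcongr
      _ = (2 * K) ^ (116000 * r) := by
          rw [← pow_add]
          congr 1
          ring
  calc (B.card : ℝ) ≤ T.card *
        ((L : ℝ) ^ k + 3 ^ k * (∏ i, (N i : ℝ)) * (D * (L:ℝ) ^ (-c))) := hsum
    _ ≤ T.card * (3 ^ k * (1 + 2 * D) * (A.card : ℝ) ^ (1 - c / (842 * x))) := by
        have := hin.trans (mul_le_mul_of_nonneg_left hpow
          (by positivity : (0:ℝ) ≤ 3 ^ k * (1 + 2 * D)))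
        gcongr
    _ = (T.card * 3 ^ k) * (1 + 2 * D) * (A.card : ℝ) ^ (1 - c / (842 * x)) := by ring
    _ ≤ (2 * K) ^ (116000 * r) * (1 + 2 * D) *
          (A.card : ℝ) ^ (1 - c / (842 * x)) := by
        gcongr
    _ = _ := by ring

end Pool.Agent.V1121.PG
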