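import Pool.Agent.V1121.PG.Explicit
import Pool.Agent.V1121.PF.Coset

/-! Character sums over sets of polynomial growth. -/

set_option autoImplicit false
set_option maxHeartbeats 4000000

open Finset
open scoped Pointwise

namespace Pool.Agent.V1121.PG

open Pool.Agent.W27.SD Pool.Agent.W27.BG

/-- the structure of sets with a small iterated sumset modulo a prime -/
theorem struct_zmod {p : ℕ} [Fact p.Prime] (hp3 : 3 ≤ p) {k n : ℕ} (hk : 1 ≤ k) (hn : 2 ≤ n)
    {L : ℝ} {B : Finset (ZMod p)} (hB : B.Nonempty)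
    (hL : (((Fintype.piFinset fun _ : Fin n => B).image fun f => ∑ i, f i).card : ℝ) ≤
      L * (B.card : ℝ))
    (hkn : Real.log (2 * L) ≤ (n : ℝ) ^ k) :
    ∃ (d : ℕ) (v : Fin d → ZMod p) (R : Fin d → ℕ) (T : Finset (ZMod p)),
      (d : ℝ) ≤ 420 * (1 + Real.log (2 * L) / Real.log n) ∧
      (∀ y : Fin d → ℤ, (∀ i, |y i| ≤ R i) → lin v y = 0 → y = 0) ∧
      (∏ i, (2 * (R i : ℝ) + 1)) ≤ B.card ∧ (T.card : ℝ) ≤ (2 * L) ^ (113000 * k) ∧
      ∀ a ∈ B, ∃ t ∈ T, ∃ c : Fin d → ℤ, (∀ i, |c i| ≤ R i) ∧ a = t + lin v c := by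
  classical
  have hL1 : 1 ≤ L := V1121.PF.one_le_of_card (by omega) hB hL
  obtain ⟨d, hd, v, M, H, T, hfin, hprop, hvol, hT, hcov⟩ := V1121.PF.iterated_coset hk hn hB hL hkn
  have hlin : ∀ (v : Fin d → ZMod p) (c : Fin d → ℤ), ∑ i, c i • v i = lin v c := by
    intro v c
    unfold lin
    exact Finset.sum_congr rfl fun i _ => zsmul_eq_mul _ _
  by_cases hH : H = ⊥
  · subst hH
    refine ⟨d, v, M, T, hd, ?_, ?_, hT, ?_⟩
    · intro y hy hy0
      refine hprop y 0 hy (by intro i; simp) ?_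
      rw [hlin, hy0]
      simp
    · have h1 : ∏ i, (2 * M i + 1) ≤ B.card := by
        have h2 : Nat.card (⊥ : AddSubgroup (ZMod p)) = 1 := by simp
        rw [h2, mul_one] at hvol
        exact hvol
      exact_mod_cast h1
    · intro a ha
      obtain ⟨t, ht, c, hc, h, hh, e⟩ := hcov a ha
      refine ⟨t, ht, c, hc, ?_⟩
      rw [AddSubgroup.mem_bot] at hh
      rw [e, hh, hlin, add_zero]
  · have hbig : (p : ℝ) ≤ B.card := by
      have h1 : Nat.card H = p := by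
        have hdvd : Nat.card H ∣ Nat.card (ZMod p) := AddSubgroup.card_addSubgroup_dvd_card H
        rw [Nat.card_zmod] at hdvd
        rcases (Nat.dvd_prime (Fact.out : p.Prime)).1 hdvd with h | h
        · exact absurd (AddSubgroup.eq_bot_of_card_eq H h) hH
        · exact h
      have h2 : 1 ≤ ∏ i, (2 * M i + 1) := Nat.one_le_iff_ne_zero.2
        (Finset.prod_ne_zero_iff.2 fun i _ => by omega)
      have h3 : p ≤ B.card := by
        rw [h1] at hvol
        calc p = 1 * p := (one_mul p).symm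
          _ ≤ _ := (Nat.mul_le_mul_right p h2).trans hvol
      exact_mod_cast h3
    refine ⟨1, fun _ => 1, fun _ => (p - 1) / 2, {0}, ?_, ?_, ?_, ?_, ?_⟩
    · have h1 : 0 ≤ Real.log (2 * L) / Real.log n := by
        apply div_nonneg (Real.log_nonneg (by linarith))
        exact Real.log_nonneg (by exact_mod_cast (by omega : 1 ≤ n))
      push_cast
      linarith
    · intro y hy hy0
      have h1 : lin (fun _ : Fin 1 => (1 : ZMod p)) y = ((y 0 : ℤ) : ZMod p) := by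
        unfold lin
        simp
      rw [h1, ZMod.intCast_zmod_eq_zero_iff_dvd] at hy0
      have h2 := hy 0
      have h3 : |y 0| < (p : ℤ) := by
        refine lt_of_le_of_lt h2 ?_
        have : (p - 1) / 2 < p := by omega
        exact_mod_cast this
      have h4 := Int.eq_zero_of_abs_lt_dvd hy0 h3
      funext i
      have : i = 0 := Subsingleton.elim _ _
      rw [this, h4]
      rfl
    · have h1 : (2 * ((p - 1) / 2) + 1 : ℕ) ≤ p := by omega
      have h2 : (2 * (((p - 1) / 2 : ℕ) : ℝ) + 1) ≤ p := by exact_mod_cast h1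
      simpa using h2.trans hbig
    · simp only [Finset.card_singleton]
      push_cast
      exact one_le_pow₀ (by linarith)
    · intro a _
      refine ⟨0, by simp, fun _ => a.valMinAbs, ?_, ?_⟩
      · intro i
        have h1 := ZMod.natAbs_valMinAbs_le a
        have hodd : p % 2 = 1 := by
          rcases (Fact.out : p.Prime).eq_two_or_odd with h | h
          · omega
          · exact h
        have h2 : p / 2 = (p - 1) / 2 := by omega
        rw [h2] at h1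
        rw [Int.abs_eq_natAbs]
        exact_mod_cast h1
      · unfold lin
        simp

/-- from the weighted arithmetic mean to the geometric mean -/
theorem gm_form {α : Type*} (A₁ A₂ : Finset α) (κ : α → α → ℂ) (M m₁ m₂ : ℝ)
    (hm₁ : 0 < m₁) (hm₂ : 0 < m₂)
    (h : ∀ f g : α → ℂ, ‖∑ a ∈ A₁, ∑ b ∈ A₂, f a * g b * κ a b‖
      ≤ M * ((m₂ * ∑ a ∈ A₁, ‖f a‖ ^ 2 + m₁ * ∑ b ∈ A₂, ‖g b‖ ^ 2) / 2)) (f g : α → ℂ) :
    ‖∑ a ∈ A₁, ∑ b ∈ A₂, f a * g b * κ a b‖
      ≤ M * (Real.sqrt (m₁ * m₂) *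
        (Real.sqrt (∑ a ∈ A₁, ‖f a‖ ^ 2) * Real.sqrt (∑ b ∈ A₂, ‖g b‖ ^ 2))) := by
  set F := ∑ a ∈ A₁, ‖f a‖ ^ 2 with hF
  set G := ∑ b ∈ A₂, ‖g b‖ ^ 2 with hG
  have hF0 : 0 ≤ F := Finset.sum_nonneg fun _ _ => by positivity
  have hG0 : 0 ≤ G := Finset.sum_nonneg fun _ _ => by positivity
  rcases hF0.eq_or_lt with h0 | hFpos
  · have h1 : ∀ a ∈ A₁, f a = 0 := by
      intro a ha
      have := (Finset.sum_eq_zero_iff_of_nonneg (fun _ _ => by positivity)).1 h0.symm a ha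
      simpa using this
    have h2 : ∑ a ∈ A₁, ∑ b ∈ A₂, f a * g b * κ a b = 0 := by
      refine Finset.sum_eq_zero fun a ha => Finset.sum_eq_zero fun b _ => ?_
      rw [h1 a ha]; ring
    rw [h2, norm_zero, ← h0]
    simp
  rcases hG0.eq_or_lt with h0 | hGpos
  · have h1 : ∀ a ∈ A₂, g a = 0 := by
      intro a ha
      have := (Finset.sum_eq_zero_iff_of_nonneg (fun _ _ => by positivity)).1 h0.symm a ha
      simpa using this
    have h2 : ∑ a ∈ A₁, ∑ b ∈ A₂, f a * g b * κ a b = 0 := by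
      refine Finset.sum_eq_zero fun a _ => Finset.sum_eq_zero fun b hb => ?_
      rw [h1 b hb]; ring
    rw [h2, norm_zero, ← h0]
    simp
  obtain ⟨s, hs⟩ : ∃ s : ℝ, s = Real.sqrt (m₂ * F) := ⟨_, rfl⟩
  obtain ⟨t, ht⟩ : ∃ t : ℝ, t = Real.sqrt (m₁ * G) := ⟨_, rfl⟩
  have hs0 : 0 < s := by rw [hs]; exact Real.sqrt_pos.2 (by positivity)
  have ht0 : 0 < t := by rw [ht]; exact Real.sqrt_pos.2 (by positivity)
  have hss : s ^ 2 = m₂ * F := by rw [hs]; exact Real.sq_sqrt (by positivity)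
  have htt : t ^ 2 = m₁ * G := by rw [ht]; exact Real.sq_sqrt (by positivity)
  have h1 := h (fun a => (s⁻¹ : ℝ) * f a) (fun b => (t⁻¹ : ℝ) * g b)
  have e1 : ∑ a ∈ A₁, ∑ b ∈ A₂, ((s⁻¹ : ℝ) * f a) * ((t⁻¹ : ℝ) * g b) * κ a b
      = ((s⁻¹ * t⁻¹ : ℝ) : ℂ) * ∑ a ∈ A₁, ∑ b ∈ A₂, f a * g b * κ a b := by
    rw [Finset.mul_sum]
    refine Finset.sum_congr rfl fun a _ => ?_
    rw [Finset.mul_sum]
    refine Finset.sum_congr rfl fun b _ => ?_
    push_cast
    ring
  have e2 : m₂ * ∑ a ∈ A₁, ‖((s⁻¹ : ℝ) : ℂ) * f a‖ ^ 2 = 1 := by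
    have : ∀ a ∈ A₁, ‖((s⁻¹ : ℝ) : ℂ) * f a‖ ^ 2 = (s ^ 2)⁻¹ * ‖f a‖ ^ 2 := by
      intro a _
      rw [norm_mul, Complex.norm_real, Real.norm_of_nonneg (by positivity), mul_pow, inv_pow]
    rw [Finset.sum_congr rfl this, ← Finset.mul_sum, ← hF, hss]
    field_simp
  have e3 : m₁ * ∑ b ∈ A₂, ‖((t⁻¹ : ℝ) : ℂ) * g b‖ ^ 2 = 1 := by
    have : ∀ b ∈ A₂, ‖((t⁻¹ : ℝ) : ℂ) * g b‖ ^ 2 = (t ^ 2)⁻¹ * ‖g b‖ ^ 2 := by
      intro b _
      rw [norm_mul, Complex.norm_real, Real.norm_of_nonneg (by positivity), mul_pow, inv_pow]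
    rw [Finset.sum_congr rfl this, ← Finset.mul_sum, ← hG, htt]
    field_simp
  rw [e1, e2, e3, norm_mul, Complex.norm_real, Real.norm_of_nonneg (by positivity)] at h1
  have h2 : ((1 : ℝ) + 1) / 2 = 1 := by norm_num
  rw [h2, mul_one] at h1
  have h3 : s⁻¹ * t⁻¹ = (s * t)⁻¹ := by rw [mul_inv]
  rw [h3, inv_mul_le_iff₀ (by positivity)] at h1
  have h4 : s * t = Real.sqrt (m₁ * m₂) * (Real.sqrt F * Real.sqrt G) := by
    rw [hs, ht, Real.sqrt_mul hm₂.le, Real.sqrt_mul hm₁.le, Real.sqrt_mul hm₁.le]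
    ring
  rw [h4] at h1
  linarith

/-- covering by translates of `B - B` -/
theorem cover_of_add {p : ℕ} (A B : Finset (ZMod p)) (hB : B.Nonempty) (E : ℝ)
    (h : ((A + B).card : ℝ) ≤ E * A.card) :
    ∃ X : Finset (ZMod p), (X.card : ℝ) * B.card ≤ E * A.card ∧
      ∀ a ∈ A, ∃ x ∈ X, ∃ b ∈ B, ∃ b' ∈ B, a = x + (b - b') := by
  classical
  have hB0 : (0 : ℝ) < B.card := by exact_mod_cast hB.card_pos
  obtain ⟨F, hFA, hFcard, hFcov⟩ := Finset.ruzsa_covering_add (A := A) (B := B)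
    (K := E * A.card / B.card) hB (by
      rw [div_mul_cancel₀ _ hB0.ne']
      exact h)
  refine ⟨F, by rwa [le_div_iff₀ hB0] at hFcard, ?_⟩
  intro a ha
  have h1 := hFcov ha
  rw [Finset.mem_add] at h1
  obtain ⟨x, hx, d, hd, e⟩ := h1
  rw [Finset.mem_sub] at hd
  obtain ⟨b, hb, b', hb', e'⟩ := hd
  exact ⟨x, hx, b, hb, b', hb', by rw [e', e]⟩

/-- numerical lemma -/
theorem size_bound {n k : ℕ} (hk : 1 ≤ k) (hn : 2 ≤ n) {u x : ℝ} (hu : Real.log 2 ≤ u)
    (hun : u ≤ (n : ℝ) ^ k) (hx : x = 1 + u / Real.log n) (D : ℕ) (hD1 : 1 ≤ D)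
    (hD : (D : ℝ) ≤ 420 * x) :
    1 + 113000 * k * u + D * Real.log (51 * D) ≤ 130000 * (k * u) := by
  have hkR : (1 : ℝ) ≤ k := by exact_mod_cast hk
  have hnR : (2 : ℝ) ≤ n := by exact_mod_cast hn
  have hl2 : 0.69 < Real.log 2 := by
    have := Real.log_two_gt_d9
    linarith
  have hln : Real.log 2 ≤ Real.log n := Real.log_le_log (by norm_num) hnR
  have hln0 : 0 < Real.log n := by linarith
  have hu0 : 0 < u := by linarith
  have hku : u ≤ k * u := by nlinarith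
  have hDR : (1 : ℝ) ≤ D := by exact_mod_cast hD1
  obtain ⟨y, hy⟩ : ∃ y : ℝ, y = u / Real.log n := ⟨_, rfl⟩
  have hy0 : 0 < y := by rw [hy]; positivity
  have hyln : y * Real.log n = u := by rw [hy]; field_simp
  have hy1 : y ≤ 1.45 * u := by
    have h1 : 0.69 * y ≤ u := by
      rw [← hyln, mul_comm y]
      exact mul_le_mul_of_nonneg_right (by linarith) hy0.le
    linarith
  have hxy : x = 1 + y := by rw [hx, hy]
  have hx1 : 1 ≤ x := by linarith
  have hx2 : x ≤ 2.9 * (k * u) := by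
    have : 1 ≤ 1.45 * u := by linarith
    linarith
  -- `log x`
  have hlx : Real.log x ≤ 0.9 + k * Real.log n := by
    have h1 : x ≤ 2.45 * (n : ℝ) ^ k := by
      have : (1 : ℝ) ≤ (n : ℝ) ^ k := one_le_pow₀ (by linarith)
      linarith
    have h2 : Real.log x ≤ Real.log (2.45 * (n : ℝ) ^ k) := Real.log_le_log (by linarith) h1
    rw [Real.log_mul (by norm_num) (by positivity), Real.log_pow] at h2
    have h3 : Real.log 2.45 ≤ 0.9 := by
      rw [Real.log_le_iff_le_exp (by norm_num)]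
      have h4 := Real.exp_one_gt_d9
      have h5 : (2.7182818283 : ℝ) ^ 9 ≤ Real.exp 1 ^ 9 := pow_le_pow_left₀ (by norm_num) h4.le 9
      have h6 : Real.exp 1 ^ 9 = Real.exp 0.9 ^ 10 := by
        rw [← Real.exp_nat_mul, ← Real.exp_nat_mul]
        norm_num
      have h7 : (2.45 : ℝ) ^ 10 ≤ Real.exp 0.9 ^ 10 := by
        rw [← h6]
        refine le_trans ?_ h5
        norm_num
      exact le_of_pow_le_pow_left₀ (by norm_num) (Real.exp_pos _).le h7
    linarith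
  have hlx0 : 0 ≤ Real.log x := Real.log_nonneg hx1
  have hxlx : x * Real.log x ≤ 4 * (k * u) := by
    have h1 : Real.log x ≤ y := by
      have := Real.log_le_sub_one_of_pos (show 0 < x by linarith)
      linarith
    have h2 : y * Real.log x ≤ y * (0.9 + k * Real.log n) := mul_le_mul_of_nonneg_left hlx hy0.le
    have h3 : y * (0.9 + k * Real.log n) = 0.9 * y + k * (y * Real.log n) := by ring
    rw [h3, hyln] at h2
    have h4 : x * Real.log x = Real.log x + y * Real.log x := by rw [hxy]; ring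
    rw [h4]
    nlinarith
  have h51 : Real.log (51 * D) ≤ 10 + Real.log x := by
    have h1 : (51 : ℝ) * D ≤ 21420 * x := by linarith
    have h2 := Real.log_le_log (by positivity) h1
    rw [Real.log_mul (x := 21420) (y := x) (by norm_num) (by linarith)] at h2
    have h3 : Real.log 21420 ≤ 10 := by
      rw [Real.log_le_iff_le_exp (by norm_num)]
      have h4 := Real.exp_one_gt_d9
      have h5 : (2.7182818283 : ℝ) ^ 10 ≤ Real.exp 1 ^ 10 := pow_le_pow_left₀ (by norm_num) h4.le 10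
      have h6 : Real.exp 1 ^ 10 = Real.exp 10 := by
        rw [← Real.exp_nat_mul]
        norm_num
      rw [← h6]
      refine le_trans ?_ h5
      norm_num
    linarith
  have hlog0 : 0 ≤ Real.log (51 * D) := Real.log_nonneg (by linarith)
  have h1 : (D : ℝ) * Real.log (51 * D) ≤ (420 * x) * (10 + Real.log x) :=
    mul_le_mul hD h51 hlog0 (by linarith)
  have h2 : (420 * x) * (10 + Real.log x) = 4200 * x + 420 * (x * Real.log x) := by ring
  have h3 : (113000 : ℝ) * k * u = 113000 * (k * u) := by ring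
  rw [h3]
  linarith

/-- **Bilinear forms with kernel `χ (a - b)` on sets nearly invariant under a set whose `n`-fold
sumset is small.** -/
theorem poly_growth (ε : ℝ) (hε0 : 0 < ε) (hε : ε ≤ 1 / 20) :
    ∃ c : ℝ, 0 < c ∧ ∀ (p : ℕ) [Fact p.Prime] (χ : DirichletCharacter ℂ p), χ ≠ 1 →
      ∀ (k n : ℕ), 1 ≤ k → 2 ≤ n → ∀ (L x : ℝ) (B : Finset (ZMod p)),
        (p : ℝ) ^ (1 / 4 + 5 * ε) < B.card →
        (((Fintype.piFinset fun _ : Fin n => B).image fun f => ∑ i, f i).card : ℝ) ≤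
          L * (B.card : ℝ) →
        Real.log (2 * L) ≤ (n : ℝ) ^ k → x = 1 + Real.log (2 * L) / Real.log n →
        k * Real.log (2 * L) * x ^ 4 ≤ c * Real.log p →
        ∀ A₁ A₂ : Finset (ZMod p), A₁.Nonempty → A₂.Nonempty →
          ((A₁ + B).card : ℝ) ≤ Real.exp (c * Real.log p / x ^ 4) * A₁.card →
          ((A₂ + B).card : ℝ) ≤ Real.exp (c * Real.log p / x ^ 4) * A₂.card →
          ∀ f g : ZMod p → ℂ, ‖∑ a ∈ A₁, ∑ b ∈ A₂, f a * g b * χ (a - b)‖
            ≤ Real.exp (-(c * Real.log p / x ^ 4)) * (Real.sqrt (A₁.card * A₂.card) *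
              (Real.sqrt (∑ a ∈ A₁, ‖f a‖ ^ 2) * Real.sqrt (∑ b ∈ A₂, ‖g b‖ ^ 2))) := by
  classical
  obtain ⟨M, hM⟩ : ∃ M : ℝ, M = 8 + Real.log (64 / ε) := ⟨_, rfl⟩
  have hM8 : 8 ≤ M := by
    rw [hM]
    have : 0 ≤ Real.log (64 / ε) := by
      apply Real.log_nonneg
      rw [le_div_iff₀ hε0]
      linarith
    linarith
  obtain ⟨c, hc⟩ : ∃ c : ℝ, c = ε ^ 2 / (1024 * 421 ^ 4) / (130000 * M) := ⟨_, rfl⟩
  have hc0 : 0 < c := by rw [hc]; positivity
  have hc1 : c ≤ 1 / 1000 := by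
    rw [hc, div_le_iff₀ (by positivity), div_le_iff₀ (by positivity)]
    nlinarith
  refine ⟨c, hc0, ?_⟩
  intro p _ χ hχ k n hk hn L x B hBδ hL hkn hx hcond A₁ A₂ hA₁ hA₂ hAB₁ hAB₂ f g
  have hp1n : 1 < p := (Fact.out : p.Prime).one_lt
  have hp1' : (1 : ℝ) < p := by exact_mod_cast hp1n
  have hp0 : (0 : ℝ) < p := by linarith
  obtain ⟨l, hl⟩ : ∃ l : ℝ, l = Real.log p := ⟨_, rfl⟩
  have hl0 : 0 < l := by rw [hl]; exact Real.log_pos hp1'
  have hB0 : (0 : ℝ) < B.card := lt_of_le_of_lt (by positivity) hBδ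
  have hB : B.Nonempty := by
    rw [← Finset.card_pos]
    exact_mod_cast hB0
  have hL1 : 1 ≤ L := V1121.PF.one_le_of_card (by omega) hB hL
  obtain ⟨u, hu⟩ : ∃ u : ℝ, u = Real.log (2 * L) := ⟨_, rfl⟩
  rw [← hu] at hkn hx hcond
  rw [← hl] at hcond hAB₁ hAB₂ ⊢
  have hl2 : 0.69 < Real.log 2 := by
    have := Real.log_two_gt_d9
    linarith
  have hu2 : Real.log 2 ≤ u := by
    rw [hu]
    exact Real.log_le_log (by norm_num) (by linarith)
  have hkR : (1 : ℝ) ≤ k := by exact_mod_cast hk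
  have hnR : (2 : ℝ) ≤ n := by exact_mod_cast hn
  have hln0 : 0 < Real.log n := Real.log_pos (by linarith)
  have hx1 : 1 ≤ x := by
    rw [hx]
    have : 0 ≤ u / Real.log n := div_nonneg (by linarith) hln0.le
    linarith
  have hx4 : 1 ≤ x ^ 4 := one_le_pow₀ hx1
  have hx40 : 0 < x ^ 4 := by linarith
  obtain ⟨η, hη⟩ : ∃ η : ℝ, η = c * l / x ^ 4 := ⟨_, rfl⟩
  rw [← hη] at hAB₁ hAB₂ ⊢
  have hkuη : k * u ≤ η := by
    rw [hη, le_div_iff₀ hx40]
    exact hcond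
  have hku0 : 0.69 ≤ k * u := by nlinarith
  have hη0 : 0.69 ≤ η := hku0.trans hkuη
  have hp3 : 3 ≤ p := by
    by_contra hcon
    have hp2 : p = 2 := by omega
    have h1 : η ≤ c * l := by
      rw [hη]
      exact div_le_self (by positivity) hx4
    have h2 : l < 1 := by
      rw [hl, hp2]
      have := Real.log_two_lt_d9
      push_cast
      linarith
    nlinarith
  obtain ⟨d, v, R, T, hd, hprop, hvol, hT, hcov⟩ := struct_zmod hp3 hk hn hB hL (by
    rw [← hu]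
    exact hkn)
  rw [← hu, ← hx] at hd
  obtain ⟨D, hD⟩ : ∃ D : ℕ, D = ⌊420 * x⌋₊ := ⟨_, rfl⟩
  have hDx : (D : ℝ) ≤ 420 * x := by rw [hD]; exact Nat.floor_le (by positivity)
  have hD1 : 1 ≤ D := by
    rw [hD]
    apply Nat.le_floor
    push_cast
    linarith
  have hdD : d ≤ D := by
    rw [hD]
    exact Nat.le_floor hd
  obtain ⟨C, hC⟩ : ∃ C : ℝ, C = (2 * L) ^ (113000 * k) := ⟨_, rfl⟩
  have hC1 : 1 ≤ C := by rw [hC]; exact one_le_pow₀ (by linarith)
  have hlogC : Real.log C = 113000 * k * u := by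
    rw [hC, Real.log_pow, hu]
    push_cast
    ring
  obtain ⟨G, hG⟩ : ∃ G : ℝ, G = ε ^ 2 * Real.log p / (1024 * ((D : ℝ) + 1) ^ 4) := ⟨_, rfl⟩
  have hGη : 130000 * M * η ≤ G := by
    rw [hη, hc, hG, ← hl]
    have h1 : ((D : ℝ) + 1) ^ 4 ≤ (421 * x) ^ 4 :=
      pow_le_pow_left₀ (by positivity) (by linarith) 4
    have e1 : 130000 * M * (ε ^ 2 / (1024 * 421 ^ 4) / (130000 * M) * l / x ^ 4)
        = ε ^ 2 * l / (1024 * (421 * x) ^ 4) := by
      have hM0 : M ≠ 0 := by linarith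
      have hx0 : x ≠ 0 := by linarith
      field_simp
    rw [e1]
    apply div_le_div_of_nonneg_left (by positivity) (by positivity)
    exact mul_le_mul_of_nonneg_left h1 (by norm_num)
  have hH : (8 + Real.log (64 / ε)) * (1 + Real.log C + D * Real.log (51 * D)) ≤ G := by
    rw [← hM, hlogC]
    have h1 := size_bound hk hn hu2 hkn hx D hD1 hDx
    calc M * (1 + 113000 * k * u + D * Real.log (51 * D)) ≤ M * (130000 * (k * u)) :=
          mul_le_mul_of_nonneg_left h1 (by linarith)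
      _ = 130000 * M * (k * u) := by ring
      _ ≤ 130000 * M * η := mul_le_mul_of_nonneg_left hkuη (by positivity)
      _ ≤ G := hGη
  have hGη4 : 4 * η ≤ G := by
    have h1 : 4 * η ≤ 130000 * M * η := by
      apply mul_le_mul_of_nonneg_right _ (by linarith)
      linarith
    linarith
  obtain ⟨X₁, hX₁, hcX₁⟩ := cover_of_add A₁ B hB _ hAB₁
  obtain ⟨X₂, hX₂, hcX₂⟩ := cover_of_add A₂ B hB _ hAB₂
  have hA₁0 : (0 : ℝ) < A₁.card := by exact_mod_cast hA₁.card_pos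
  have hA₂0 : (0 : ℝ) < A₂.card := by exact_mod_cast hA₂.card_pos
  have hmain : ∀ f g : ZMod p → ℂ, ‖∑ a ∈ A₁, ∑ b ∈ A₂, f a * g b * χ (a - b)‖
      ≤ Real.exp (-η) * ((A₂.card * ∑ a ∈ A₁, ‖f a‖ ^ 2 + A₁.card * ∑ b ∈ A₂, ‖g b‖ ^ 2) / 2) := by
    intro f g
    have h1 := explicit_form ε hε0 hε D hD1 C hC1 G hG hH χ hχ B hBδ v R T hdD hprop
      (hvol.trans (le_mul_of_one_le_left (Nat.cast_nonneg _) hC1)) (by rw [hC]; exact hT) hcov
      X₁ X₂ A₁ A₂ hcX₁ hcX₂ f g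
    refine h1.trans ?_
    obtain ⟨S₁, hS₁⟩ : ∃ S : ℝ, S = ∑ a ∈ A₁, ‖f a‖ ^ 2 := ⟨_, rfl⟩
    obtain ⟨S₂, hS₂⟩ : ∃ S : ℝ, S = ∑ b ∈ A₂, ‖g b‖ ^ 2 := ⟨_, rfl⟩
    have hS₁0 : 0 ≤ S₁ := by rw [hS₁]; exact Finset.sum_nonneg fun _ _ => by positivity
    have hS₂0 : 0 ≤ S₂ := by rw [hS₂]; exact Finset.sum_nonneg fun _ _ => by positivity
    rw [← hS₁, ← hS₂]
    have hexp : Real.exp (-(G / 2)) * Real.exp η ≤ Real.exp (-η) := by
      rw [← Real.exp_add]
      apply Real.exp_le_exp.2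
      linarith
    calc Real.exp (-(G / 2)) * B.card * ((X₂.card * S₁ + X₁.card * S₂) / 2)
        = Real.exp (-(G / 2)) * (((X₂.card * B.card) * S₁ + (X₁.card * B.card) * S₂) / 2) := by ring
      _ ≤ Real.exp (-(G / 2)) * (((Real.exp η * A₂.card) * S₁ + (Real.exp η * A₁.card) * S₂) / 2) := by
          apply mul_le_mul_of_nonneg_left _ (Real.exp_pos _).le
          have t1 := mul_le_mul_of_nonneg_right hX₂ hS₁0
          have t2 := mul_le_mul_of_nonneg_right hX₁ hS₂0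
          linarith
      _ = (Real.exp (-(G / 2)) * Real.exp η) * ((A₂.card * S₁ + A₁.card * S₂) / 2) := by ring
      _ ≤ _ := by
          apply mul_le_mul_of_nonneg_right hexp
          exact div_nonneg (add_nonneg (mul_nonneg hA₂0.le hS₁0) (mul_nonneg hA₁0.le hS₂0))
            (by norm_num)
  exact gm_form A₁ A₂ (fun a b => χ (a - b)) (Real.exp (-η)) A₁.card A₂.card hA₁0 hA₂0 hmain f g

end Pool.Agent.V1121.PG
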