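import Pool.Agent.V1121.PG.Final

/-! Power saving for sets of polynomial growth. -/

set_option autoImplicit false
set_option maxHeartbeats 4000000

open Finset
open scoped Pointwise

namespace Pool.Agent.V1121.PG

open Pool.Agent.W27.SD Pool.Agent.W27.BG

/-- the parameters for `L = n ^ C` -/
theorem power_params (C n : ℕ) (hn : 2 ≤ n) :
    Real.log (2 * (n : ℝ) ^ C) ≤ (C + 1) * Real.log n ∧
    Real.log (2 * (n : ℝ) ^ C) ≤ (n : ℝ) ^ (C + 1) ∧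
    0 ≤ Real.log (2 * (n : ℝ) ^ C) ∧
    1 + Real.log (2 * (n : ℝ) ^ C) / Real.log n ≤ C + 2 := by
  have hnR : (2 : ℝ) ≤ n := by exact_mod_cast hn
  have hln0 : 0 < Real.log n := Real.log_pos (by linarith)
  have h1 : Real.log (2 * (n : ℝ) ^ C) ≤ (C + 1) * Real.log n := by
    rw [Real.log_mul (by norm_num) (by positivity), Real.log_pow]
    have h2 : Real.log 2 ≤ Real.log n := Real.log_le_log (by norm_num) hnR
    linarith
  refine ⟨h1, ?_, ?_, ?_⟩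
  · have h2 : Real.log ((n : ℝ) ^ (C + 1)) ≤ (n : ℝ) ^ (C + 1) - 1 :=
      Real.log_le_sub_one_of_pos (by positivity)
    rw [Real.log_pow] at h2
    push_cast at h2
    linarith
  · apply Real.log_nonneg
    have : (1 : ℝ) ≤ (n : ℝ) ^ C := one_le_pow₀ (by linarith)
    linarith
  · have h3 : Real.log (2 * (n : ℝ) ^ C) / Real.log n ≤ C + 1 := by
      rw [div_le_iff₀ hln0]
      exact h1
    linarith

/-- **Power saving for sets nearly invariant under a set of polynomial growth.** -/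
theorem poly_power (δ : ℝ) (hδ : 1 / 4 < δ) (C : ℕ) :
    ∃ τ : ℝ, 0 < τ ∧ ∀ (p : ℕ) [Fact p.Prime] (χ : DirichletCharacter ℂ p), χ ≠ 1 →
      ∀ n : ℕ, 2 ≤ n → (n : ℝ) ≤ (p : ℝ) ^ τ → ∀ B : Finset (ZMod p),
        (p : ℝ) ^ δ < B.card →
        (((Fintype.piFinset fun _ : Fin n => B).image fun f => ∑ i, f i).card : ℝ) ≤
          (n : ℝ) ^ C * (B.card : ℝ) →
        ∀ A₁ A₂ : Finset (ZMod p), A₁.Nonempty → A₂.Nonempty →
          ((A₁ + B).card : ℝ) ≤ (p : ℝ) ^ τ * A₁.card →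
          ((A₂ + B).card : ℝ) ≤ (p : ℝ) ^ τ * A₂.card →
          ∀ f g : ZMod p → ℂ, ‖∑ a ∈ A₁, ∑ b ∈ A₂, f a * g b * χ (a - b)‖
            ≤ (p : ℝ) ^ (-(2 * τ)) * (Real.sqrt (A₁.card * A₂.card) *
              (Real.sqrt (∑ a ∈ A₁, ‖f a‖ ^ 2) * Real.sqrt (∑ b ∈ A₂, ‖g b‖ ^ 2))) := by
  classical
  obtain ⟨ε, hεdef⟩ : ∃ ε : ℝ, ε = min ((δ - 1 / 4) / 5) (1 / 20) := ⟨_, rfl⟩
  have hε0 : 0 < ε := by
    rw [hεdef]
    exact lt_min (by linarith) (by norm_num)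
  have hεδ : 1 / 4 + 5 * ε ≤ δ := by
    have := min_le_left ((δ - 1 / 4) / 5) (1 / 20 : ℝ)
    rw [← hεdef] at this
    linarith
  have hε20 : ε ≤ 1 / 20 := by
    rw [hεdef]
    exact min_le_right _ _
  obtain ⟨c, hc, hmain⟩ := poly_growth ε hε0 hε20
  obtain ⟨τ, hτ⟩ : ∃ τ : ℝ, τ = c / (2 * ((C : ℝ) + 2) ^ 6) := ⟨_, rfl⟩
  have hτ0 : 0 < τ := by rw [hτ]; positivity
  have hτc : 2 * ((C : ℝ) + 2) ^ 6 * τ = c := by rw [hτ]; field_simp
  refine ⟨τ, hτ0, ?_⟩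
  intro p _ χ hχ n hn hnp B hB hL A₁ A₂ hA₁ hA₂ hAB₁ hAB₂ f g
  have hp1n : 1 < p := (Fact.out : p.Prime).one_lt
  have hp1' : (1 : ℝ) < p := by exact_mod_cast hp1n
  have hp0 : (0 : ℝ) < p := by linarith
  obtain ⟨l, hl⟩ : ∃ l : ℝ, l = Real.log p := ⟨_, rfl⟩
  have hl0 : 0 < l := by rw [hl]; exact Real.log_pos hp1'
  have hnR : (2 : ℝ) ≤ n := by exact_mod_cast hn
  have hln0 : 0 < Real.log n := Real.log_pos (by linarith)
  have hrp : ∀ b : ℝ, (p : ℝ) ^ b = Real.exp (b * l) := by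
    intro b
    rw [Real.rpow_def_of_pos hp0, hl, mul_comm]
  have hlnp : Real.log n ≤ τ * l := by
    have h1 := Real.log_le_log (by linarith : (0 : ℝ) < n) hnp
    rw [hrp, Real.log_exp] at h1
    exact h1
  obtain ⟨q1, q2, q3, q4⟩ := power_params C n hn
  obtain ⟨u, hu⟩ : ∃ u : ℝ, u = Real.log (2 * (n : ℝ) ^ C) := ⟨_, rfl⟩
  obtain ⟨x, hx⟩ : ∃ x : ℝ, x = 1 + Real.log (2 * (n : ℝ) ^ C) / Real.log n := ⟨_, rfl⟩
  rw [← hx] at q4
  have hx1 : 1 ≤ x := by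
    rw [hx]
    have : 0 ≤ Real.log (2 * (n : ℝ) ^ C) / Real.log n := div_nonneg q3 hln0.le
    linarith
  have hx4 : x ^ 4 ≤ ((C : ℝ) + 2) ^ 4 := pow_le_pow_left₀ (by linarith) q4 4
  have hx40 : 0 < x ^ 4 := by positivity
  have hC2 : (2 : ℝ) ≤ (C : ℝ) + 2 := by
    have : (0 : ℝ) ≤ C := Nat.cast_nonneg _
    linarith
  have hcond : ((C + 1 : ℕ) : ℝ) * Real.log (2 * (n : ℝ) ^ C) * x ^ 4 ≤ c * Real.log p := by
    rw [← hl]
    have h1 : ((C + 1 : ℕ) : ℝ) * Real.log (2 * (n : ℝ) ^ C) ≤ ((C : ℝ) + 2) ^ 2 * (τ * l) := by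
      push_cast
      calc ((C : ℝ) + 1) * Real.log (2 * (n : ℝ) ^ C)
          ≤ ((C : ℝ) + 2) * (((C : ℝ) + 2) * (τ * l)) := by
            apply mul_le_mul (by linarith) _ q3 (by linarith)
            refine q1.trans ?_
            exact mul_le_mul (by linarith) hlnp hln0.le (by linarith)
        _ = _ := by ring
    calc ((C + 1 : ℕ) : ℝ) * Real.log (2 * (n : ℝ) ^ C) * x ^ 4
        ≤ (((C : ℝ) + 2) ^ 2 * (τ * l)) * ((C : ℝ) + 2) ^ 4 :=
          mul_le_mul h1 hx4 hx40.le (by positivity)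
      _ = (((C : ℝ) + 2) ^ 6 * τ) * l := by ring
      _ ≤ c * l := by
          apply mul_le_mul_of_nonneg_right _ hl0.le
          have : 0 ≤ ((C : ℝ) + 2) ^ 6 * τ := by positivity
          linarith
  have hη : 2 * τ * l ≤ c * Real.log p / x ^ 4 := by
    rw [← hl, le_div_iff₀ hx40]
    calc 2 * τ * l * x ^ 4 ≤ 2 * τ * l * ((C : ℝ) + 2) ^ 4 :=
          mul_le_mul_of_nonneg_left hx4 (by positivity)
      _ ≤ 2 * τ * l * ((C : ℝ) + 2) ^ 6 := by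
          apply mul_le_mul_of_nonneg_left _ (by positivity)
          exact pow_le_pow_right₀ (by linarith) (by norm_num)
      _ = (2 * ((C : ℝ) + 2) ^ 6 * τ) * l := by ring
      _ = c * l := by rw [hτc]
  have hexp : ∀ A : Finset (ZMod p), ((A + B).card : ℝ) ≤ (p : ℝ) ^ τ * A.card →
      ((A + B).card : ℝ) ≤ Real.exp (c * Real.log p / x ^ 4) * A.card := by
    intro A hA
    refine hA.trans (mul_le_mul_of_nonneg_right ?_ (Nat.cast_nonneg _))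
    rw [hrp]
    apply Real.exp_le_exp.2
    have : 0 ≤ τ * l := by positivity
    linarith
  have h1 := hmain p χ hχ (C + 1) n (by omega) hn ((n : ℝ) ^ C) x B
    (lt_of_le_of_lt (Real.rpow_le_rpow_of_exponent_le hp1'.le hεδ) hB) hL q2 hx hcond A₁ A₂ hA₁ hA₂
    (hexp A₁ hAB₁) (hexp A₂ hAB₂) f g
  refine h1.trans (mul_le_mul_of_nonneg_right ?_ (by positivity))
  rw [hrp]
  apply Real.exp_le_exp.2
  linarith

end Pool.Agent.V1121.PG
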