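import Pool.Agent.V1121.PG.Few
import Pool.Agent.V1121.PG.Power

/-! The `p`-adic Littlewood conjecture: exceptional sets and sets of polynomial growth. -/

set_option autoImplicit false
set_option maxHeartbeats 4000000

namespace Pool.Agent.V1121.PG

open Finset Pool.Agent.TH513.IS Pool.Agent.TH869.PAL
open scoped Pointwise

open Classical in
/-- small iterated sumset -/
theorem padic_iter : ∃ c C : ℝ, 0 < c ∧ 0 < C ∧ ∀ g : ℕ, 2 ≤ g → ∀ ε : ℝ, 0 < ε → ε ≤ 1/2 →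
    ∀ (k n : ℕ) (L : ℝ) (A B : Finset ℝ), 1 ≤ k → 2 ≤ n → A.Nonempty →
      ((sm A n).card : ℝ) ≤ L * A.card → Real.log (2 * L) ≤ (n : ℝ) ^ k → B ⊆ A →
      (∀ β ∈ B, BadP g ε β) →
      (∀ b ∈ B, ∀ b' ∈ B, b ≠ b' → b - b' ∉ Pool.Agent.Y940.PA.HB g A.card) →
      (B.card : ℝ) ≤ C / ε * (2 * L) ^ (116000 * k) *
        (A.card : ℝ) ^ (1 - c * ε / (Real.log (g/ε) * (1 + Real.log (2 * L) / Real.log n))) := by
  obtain ⟨c, C, hc, hc1, hC, h⟩ := Pool.Agent.Y940.PA.ap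
  refine ⟨c / 842, 1 + 2 * C, by positivity, by positivity, ?_⟩
  intro g hg ε hε hε2 k n L A B hk hn hA hL hkn hBA hBZ hBH
  obtain ⟨hlog, _⟩ := Pool.Agent.Y940.PA.log_one hg hε hε2
  have hlog0 : 0 < Real.log (g/ε) := by linarith
  have hd0 : 0 < c * ε / Real.log (g/ε) := by positivity
  have hd1 : c * ε / Real.log (g/ε) ≤ 1 := by
    rw [div_le_one hlog0]
    nlinarith
  have hm := main_iter Pool.Agent.Y56.LW.real_tf (Pool.Agent.Y940.PA.HB g A.card)
    {β : ℝ | BadP g ε β} (Pool.Agent.Y940.PA.HB_smul g A.card)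
    (C / ε) (c * ε / Real.log (g/ε)) (by positivity) hd0.le hd1 hk hn A B
    (by
      intro x θ hθ L hL hLA
      convert h g hg ε hε hε2 A.card x θ hθ L hL hLA) hA hL hkn hBA
    hBZ (fun b hb b' hb' hne hcon => hBH b hb b' hb' hne hcon)
  have hL1 : 1 ≤ L := V1121.PF.one_le_of_card (by omega) hA hL
  have hexp : c * ε / Real.log (g/ε) / (842 * (1 + Real.log (2 * L) / Real.log n)) =
      c / 842 * ε / (Real.log (g/ε) * (1 + Real.log (2 * L) / Real.log n)) := by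
    rw [div_div, div_mul_eq_mul_div, div_div]
    congr 1
    ring
  rw [hexp] at hm
  refine hm.trans ?_
  have h2 : 1 + 2 * (C / ε) ≤ (1 + 2 * C) / ε := Pool.Agent.Y940.PA.conv_const hε hε2
  have h3 : (0:ℝ) ≤ (2 * L) ^ (116000 * k) := by positivity
  gcongr

end Pool.Agent.V1121.PG
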