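import Pool.Agent.V1121.PG.Power

/-! The kernel `χ (a + b)`. -/

set_option autoImplicit false
set_option maxHeartbeats 4000000

open Finset
open scoped Pointwise

namespace Pool.Agent.V1121.PG

theorem sum_neg_finset {p : ℕ} {M : Type*} [AddCommMonoid M] (A : Finset (ZMod p)) (G : ZMod p → M) :
    ∑ b ∈ -A, G b = ∑ b ∈ A, G (-b) := by
  refine Finset.sum_nbij' (fun b => -b) (fun b => -b) ?_ ?_ ?_ ?_ ?_
  · intro b hb
    rwa [Finset.mem_neg'] at hb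
  · intro b hb
    rw [Finset.mem_neg', neg_neg]
    exact hb
  · intro b _
    exact neg_neg b
  · intro b _
    exact neg_neg b
  · intro b _
    rw [neg_neg]

/-- from the kernel `χ (a - b)` to the kernel `χ (a + b)` -/
theorem add_form {p : ℕ} (χ : ZMod p → ℂ) (A₁ A₂ : Finset (ZMod p)) (M : ℝ)
    (h : ∀ f g : ZMod p → ℂ, ‖∑ a ∈ A₁, ∑ b ∈ -A₂, f a * g b * χ (a - b)‖
      ≤ M * (Real.sqrt (A₁.card * (-A₂).card) *
        (Real.sqrt (∑ a ∈ A₁, ‖f a‖ ^ 2) * Real.sqrt (∑ b ∈ -A₂, ‖g b‖ ^ 2))))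
    (f g : ZMod p → ℂ) :
    ‖∑ a ∈ A₁, ∑ b ∈ A₂, f a * g b * χ (a + b)‖
      ≤ M * (Real.sqrt (A₁.card * A₂.card) *
        (Real.sqrt (∑ a ∈ A₁, ‖f a‖ ^ 2) * Real.sqrt (∑ b ∈ A₂, ‖g b‖ ^ 2))) := by
  have h1 := h f (fun b => g (-b))
  rw [Finset.card_neg, sum_neg_finset A₂ (fun b => ‖g (-b)‖ ^ 2)] at h1
  have e1 : ∑ a ∈ A₁, ∑ b ∈ -A₂, f a * g (-b) * χ (a - b) =
      ∑ a ∈ A₁, ∑ b ∈ A₂, f a * g b * χ (a + b) := by
    refine Finset.sum_congr rfl fun a _ => ?_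
    rw [sum_neg_finset]
    refine Finset.sum_congr rfl fun b _ => ?_
    rw [neg_neg, sub_neg_eq_add]
  rw [e1] at h1
  simpa only [neg_neg] using h1

theorem card_neg_add {p : ℕ} (A B : Finset (ZMod p)) : (-A + B).card = (A - B).card := by
  have h : -A + B = -(A - B) := by
    rw [neg_sub, sub_eq_add_neg, add_comm]
  rw [h, Finset.card_neg]

end Pool.Agent.V1121.PG
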