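import Pool.Agent.V1121.PG.Power
import Pool.Agent.W27.SD.Main

/-! Exponents up to `1 / 4`: all characters but few, sets of polynomial growth. -/

set_option autoImplicit false
set_option maxHeartbeats 4000000

open Finset
open scoped Pointwise

namespace Pool.Agent.V1121.PG

open Pool.Agent.W27.SD Pool.Agent.W27.BG

/-- the difference sum for one character with few bad shifts -/
theorem diff_bound (δ e : ℝ) (C : ℕ) (hδ : 0 < δ) (he0 : 0 < e) (he16 : e ≤ 1 / 16)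
    (hδe : δ + 4 * e ≤ 1 / 2) :
    ∃ κ : ℝ, 0 < κ ∧ κ ≤ e / 32 ∧ ∀ k0 : ℕ, 1 ≤ k0 → ∃ τ : ℝ, 0 < τ ∧
      ∃ P₀ : ℕ, ∀ (p : ℕ) [Fact p.Prime], P₀ ≤ p →
      ∀ (χ : DirichletCharacter ℂ p) (L : ℕ) [NeZero (2 * L)], L = ⌊(p : ℝ) ^ κ⌋₊ →
      ((Bad L χ ((L : ℝ) ^ (1 - 1 / (2 * (k0 : ℝ))))).card : ℝ) ≤ (p : ℝ) ^ (2 * δ) →
      ∀ n : ℕ, 2 ≤ n → (n : ℝ) ≤ (p : ℝ) ^ τ →
      ∀ P : Finset (ZMod p), (p : ℝ) ^ (δ + 4 * e) < P.card →
        (((Fintype.piFinset fun _ : Fin n => P).image fun f => ∑ i, f i).card : ℝ) ≤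
          (n : ℝ) ^ C * (P.card : ℝ) →
        ∀ A : Finset (ZMod p), A.Nonempty → ((A + P).card : ℝ) ≤ (p : ℝ) ^ τ * A.card →
          ‖∑ a ∈ A, ∑ b ∈ A, χ (a - b)‖ ≤ (p : ℝ) ^ (-(2 * τ)) * (A.card * A.card) := by
  classical
  obtain ⟨D, hD⟩ : ∃ D : ℕ, D = 420 * (C + 2) := ⟨_, rfl⟩
  have hD1 : 1 ≤ D := by omega
  have hDR : (1 : ℝ) ≤ D := by exact_mod_cast hD1
  have hDC : (D : ℝ) = 420 * ((C : ℝ) + 2) := by rw [hD]; push_cast; ring
  obtain ⟨E, hE⟩ : ∃ E : ℕ, E = (C + 1) * (113000 * (C + 1)) := ⟨_, rfl⟩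
  have hE1 : 1 ≤ E := by
    rw [hE]
    exact Nat.mul_pos (by omega) (by omega)
  have hER : (1 : ℝ) ≤ E := by exact_mod_cast hE1
  obtain ⟨κ, hκdef⟩ : ∃ κ : ℝ, κ = e / (8 * ((D : ℝ) + 1) ^ 2) := ⟨_, rfl⟩
  have hκ0 : 0 < κ := by rw [hκdef]; positivity
  have hκε : κ * (8 * ((D : ℝ) + 1) ^ 2) = e := by rw [hκdef]; field_simp
  have hκle : κ ≤ e / 32 := by
    have h1 : (32 : ℝ) ≤ 8 * ((D : ℝ) + 1) ^ 2 := by nlinarith
    have h2 : κ * 32 ≤ κ * (8 * ((D : ℝ) + 1) ^ 2) := mul_le_mul_of_nonneg_left h1 hκ0.le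
    linarith
  refine ⟨κ, hκ0, hκle, ?_⟩
  intro k0 hk01
  have hk0R : (1 : ℝ) ≤ k0 := by exact_mod_cast hk01
  obtain ⟨η, hη⟩ : ∃ η : ℝ, η = κ / (8 * k0) := ⟨_, rfl⟩
  have hη0 : 0 < η := by rw [hη]; positivity
  have hηκ : η ≤ κ := by
    rw [hη]
    exact div_le_self hκ0.le (by linarith)
  obtain ⟨τ, hτ⟩ : ∃ τ : ℝ, τ = η / (8 * (E + 1)) := ⟨_, rfl⟩
  have hτ0 : 0 < τ := by rw [hτ]; positivity
  have hτη : τ * (8 * (E + 1)) = η := by rw [hτ]; field_simp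
  have hτE : τ * E ≤ e := by nlinarith
  obtain ⟨P1, hP1⟩ := large_rpow κ (48 * D + 1) hκ0
  obtain ⟨P3, hP3⟩ := large_rpow (2 * e) ((2 * D).factorial * 64 ^ D) (by positivity)
  obtain ⟨P4, hP4⟩ := large_rpow (κ / 2) 2 (by positivity)
  obtain ⟨P5, hP5⟩ := large_rpow η (5 ^ D + 2 ^ D * (51 * (D : ℝ)) ^ (2 * D) + 2 ^ D) hη0
  obtain ⟨P6, hP6⟩ := large_rpow e (3 ^ D) he0
  obtain ⟨P7, hP7⟩ := large_rpow (2 * e) (2 ^ D) (by positivity)
  obtain ⟨P8, hP8⟩ := large_rpow (η / 2) (5 ^ D) (by positivity)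
  refine ⟨τ, hτ0, P1 + P3 + P4 + P5 + P6 + P7 + P8 + 3, ?_⟩
  intro p _ hp χ L0 _ hLdef hbad n hn hnp P hPδ hL A hA hAP
  have hP1' := hP1 p (by omega)
  have hP3' := hP3 p (by omega)
  have hP4' := hP4 p (by omega)
  have hP5' := hP5 p (by omega)
  have hP6' := hP6 p (by omega)
  have hP7' := hP7 p (by omega)
  have hP8' := hP8 p (by omega)
  have hp3 : 3 ≤ p := by omega
  have hp1' : (1 : ℝ) < p := by exact_mod_cast (by omega : 1 < p)
  have hp1 : (1 : ℝ) ≤ p := hp1'.le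
  have hp0 : (0 : ℝ) < p := by linarith
  have hP0 : (0 : ℝ) < P.card := lt_of_le_of_lt (by positivity) hPδ
  have hPne : P.Nonempty := by
    rw [← Finset.card_pos]
    exact_mod_cast hP0
  have hnR : (2 : ℝ) ≤ n := by exact_mod_cast hn
  obtain ⟨q1, q2, q3, q4⟩ := power_params C n hn
  obtain ⟨d, v, R, T, hd, hprop, hvol, hT, hcov⟩ := struct_zmod hp3 (show 1 ≤ C + 1 by omega) hn hPne
    hL q2
  have hdD : d ≤ D := by
    have h1 : (d : ℝ) ≤ D := by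
      rw [hDC]
      exact hd.trans (mul_le_mul_of_nonneg_left q4 (by norm_num))
    exact_mod_cast h1
  obtain ⟨W, hW⟩ : ∃ W : ℝ, W = (p : ℝ) ^ (τ * E) := ⟨_, rfl⟩
  have hW1 : 1 ≤ W := by rw [hW]; exact Real.one_le_rpow hp1 (by positivity)
  have hTp : (T.card : ℝ) ≤ W := by
    calc (T.card : ℝ) ≤ (2 * (n : ℝ) ^ C) ^ (113000 * (C + 1)) := hT
      _ ≤ ((n : ℝ) ^ (C + 1)) ^ (113000 * (C + 1)) := by
          apply pow_le_pow_left₀ (by positivity)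
          rw [pow_succ]
          have : (0 : ℝ) ≤ (n : ℝ) ^ C := by positivity
          nlinarith
      _ = (n : ℝ) ^ E := by rw [← pow_mul, hE]
      _ ≤ ((p : ℝ) ^ τ) ^ E := pow_le_pow_left₀ (by linarith) hnp _
      _ = W := by rw [hW, ← Real.rpow_natCast, ← Real.rpow_mul hp0.le]
  obtain ⟨X, hXc, hX⟩ := cover_of_add A P hPne _ hAP
  have hW3 : W * 3 ^ D < (p : ℝ) ^ (2 * e) := by
    calc W * 3 ^ D < W * (p : ℝ) ^ e := mul_lt_mul_of_pos_left hP6' (by linarith)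
      _ ≤ (p : ℝ) ^ e * (p : ℝ) ^ e := by
          apply mul_le_mul_of_nonneg_right _ (by positivity)
          rw [hW]
          exact Real.rpow_le_rpow_of_exponent_le hp1 hτE
      _ = _ := by
          rw [← Real.rpow_add hp0]
          congr 1
          ring
  have h1 := master_num D hD1 δ e κ W hδ he0 he16 hδe hW1 hκ0 hκε k0 hk01 hP1' hP3' hP4'
    (by rw [← hη]; exact hP5') hW3 hP7' χ L0 hLdef hbad P hPδ v R T hdD hprop
    (hvol.trans (le_mul_of_one_le_left (Nat.cast_nonneg _) hW1)) hTp hcov X X A A hX hX 1 1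
  simp only [Pi.one_apply, one_mul, norm_one, one_pow, Finset.sum_const, nsmul_eq_mul,
    mul_one] at h1
  refine h1.trans ?_
  rw [← hη]
  have hWWW : W * W * (5 ^ D * W) ≤ (p : ℝ) ^ (3 * (τ * E) + η / 2) := by
    calc W * W * (5 ^ D * W) = W * W * W * 5 ^ D := by ring
      _ ≤ W * W * W * (p : ℝ) ^ (η / 2) := mul_le_mul_of_nonneg_left hP8'.le (by positivity)
      _ = _ := by
          rw [hW, ← Real.rpow_add hp0, ← Real.rpow_add hp0, ← Real.rpow_add hp0]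
          congr 1
          ring
  calc (p : ℝ) ^ (-η) * (W * W * (5 ^ D * W)) * P.card *
        (((X.card : ℝ) * A.card + X.card * A.card) / 2)
      = ((p : ℝ) ^ (-η) * (W * W * (5 ^ D * W))) * ((X.card : ℝ) * P.card) * A.card := by ring
    _ ≤ ((p : ℝ) ^ (-η) * (p : ℝ) ^ (3 * (τ * E) + η / 2)) * ((p : ℝ) ^ τ * A.card) * A.card := by
        apply mul_le_mul_of_nonneg_right _ (Nat.cast_nonneg _)
        exact mul_le_mul (mul_le_mul_of_nonneg_left hWWW (by positivity)) hXc (by positivity)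
          (by positivity)
    _ = ((p : ℝ) ^ (-η) * (p : ℝ) ^ (3 * (τ * E) + η / 2) * (p : ℝ) ^ τ) *
          (A.card * A.card) := by ring
    _ = (p : ℝ) ^ (-η + (3 * (τ * E) + η / 2) + τ) * (A.card * A.card) := by
        rw [← Real.rpow_add hp0, ← Real.rpow_add hp0]
    _ ≤ _ := by
        apply mul_le_mul_of_nonneg_right _ (by positivity)
        apply Real.rpow_le_rpow_of_exponent_le hp1
        nlinarith

/-- from the bound with `p ^ (-2 τ)` to the strict inequality -/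
theorem strict_of_bound {p : ℕ} (hp : 1 < p) [NeZero p] {τ : ℝ} (hτ : 0 < τ) {A : Finset (ZMod p)}
    (hA : A.Nonempty) {S : ℝ} (h : S ≤ (p : ℝ) ^ (-(2 * τ)) * (A.card * A.card)) :
    S < (A.card : ℝ) ^ (2 - τ) := by
  have hp1' : (1 : ℝ) < p := by exact_mod_cast hp
  have hp0 : (0 : ℝ) < p := by linarith
  have hA0 : (0 : ℝ) < A.card := by exact_mod_cast hA.card_pos
  have hAp : (A.card : ℝ) ≤ p := by
    have h := Finset.card_le_univ A
    rw [ZMod.card] at h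
    exact_mod_cast h
  calc S ≤ (p : ℝ) ^ (-(2 * τ)) * (A.card * A.card) := h
    _ < (p : ℝ) ^ (-τ) * (A.card * A.card) := by
        apply mul_lt_mul_of_pos_right _ (by positivity)
        exact Real.rpow_lt_rpow_of_exponent_lt hp1' (by linarith)
    _ ≤ (A.card : ℝ) ^ (-τ) * (A.card * A.card) :=
        mul_le_mul_of_nonneg_right (Real.rpow_le_rpow_of_nonpos hA0 hAp (by linarith))
          (by positivity)
    _ = (A.card : ℝ) ^ (2 - τ) := by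
        rw [← mul_assoc, ← Real.rpow_add_one hA0.ne', ← Real.rpow_add_one hA0.ne']
        congr 1
        ring

/-- the exceptional characters -/
def Exc (C : ℕ) (δ τ : ℝ) (p : ℕ) (χ : DirichletCharacter ℂ p) : Prop :=
  ∃ (n : ℕ) (P A : Finset (ZMod p)), 2 ≤ n ∧ (n : ℝ) ≤ (p : ℝ) ^ τ ∧ (p : ℝ) ^ δ < P.card ∧
    (((Fintype.piFinset fun _ : Fin n => P).image fun f => ∑ i, f i).card : ℝ) ≤
      (n : ℝ) ^ C * (P.card : ℝ) ∧ A.Nonempty ∧ ((A + P).card : ℝ) ≤ (p : ℝ) ^ τ * A.card ∧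
    (A.card : ℝ) ^ (2 - τ) ≤ ‖∑ a ∈ A, ∑ b ∈ A, χ (a - b)‖

/-- exponents up to `1 / 4`: all characters but few -/
theorem uniform_power (δ ε : ℝ) (C : ℕ) (hδ : 0 < δ) (hδ4 : δ ≤ 1 / 4) (hε : 0 < ε) :
    ∃ τ : ℝ, 0 < τ ∧ ∃ P : ℕ, ∀ p : ℕ, p.Prime → P ≤ p →
      ({χ : DirichletCharacter ℂ p | Exc C δ τ p χ}.ncard : ℝ) ≤ (p : ℝ) ^ (1 - 2 * δ + ε) := by
  classical
  obtain ⟨e, hedef⟩ : ∃ e : ℝ, e = min (ε / 16) (min (δ / 8) (1 / 16)) := ⟨_, rfl⟩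
  have he0 : 0 < e := by
    rw [hedef]
    exact lt_min (by linarith) (lt_min (by linarith) (by norm_num))
  have he1 : e ≤ ε / 16 := by rw [hedef]; exact min_le_left _ _
  have he2 : e ≤ δ / 8 := by rw [hedef]; exact (min_le_right _ _).trans (min_le_left _ _)
  have he3 : e ≤ 1 / 16 := by rw [hedef]; exact (min_le_right _ _).trans (min_le_right _ _)
  obtain ⟨κ, hκ0, hκe, hrest⟩ := diff_bound (δ - 4 * e) e C (by linarith) he0 he3
    (by linarith)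
  obtain ⟨k, hk⟩ := exists_nat_ge (2 / κ)
  have hκk : 1 ≤ κ / 2 * k := by
    rw [div_le_iff₀ hκ0] at hk
    linarith
  have hk1 : 1 ≤ k := by
    rcases Nat.eq_zero_or_pos k with h | h
    · subst h
      simp at hκk
      linarith
    · exact h
  obtain ⟨τ, hτ, P2, hP2⟩ := hrest k hk1
  obtain ⟨P3, hP3⟩ := large_rpow κ 1 hκ0
  obtain ⟨P4, hP4⟩ := large_rpow (κ / 2) 2 (by positivity)
  obtain ⟨P5, hP5⟩ := large_rpow (ε / 4) (2 * 4 ^ k * (k + (k : ℝ) ^ k)) (by positivity)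
  refine ⟨τ, hτ, P2 + P3 + P4 + P5, ?_⟩
  intro p hpp hp
  have : Fact p.Prime := ⟨hpp⟩
  have hP4' := hP4 p (by omega)
  have hP5' := hP5 p (by omega)
  have hp1n : 1 < p := hpp.one_lt
  have hp1 : (1 : ℝ) ≤ p := by exact_mod_cast hp1n.le
  have hp0 : (0 : ℝ) < p := by linarith
  obtain ⟨L, hLdef⟩ : ∃ L : ℕ, L = ⌊(p : ℝ) ^ κ⌋₊ := ⟨_, rfl⟩
  have hL1 : 1 ≤ L := by
    rw [hLdef]
    exact Nat.le_floor (by
      have := hP3 p (by omega)
      push_cast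
      exact this.le)
  have : NeZero (2 * L) := ⟨by omega⟩
  have hLle : (L : ℝ) ≤ (p : ℝ) ^ κ := by rw [hLdef]; exact Nat.floor_le (by positivity)
  have hLlt : (p : ℝ) ^ κ < L + 1 := by rw [hLdef]; exact Nat.lt_floor_add_one _
  have hL0 : (0 : ℝ) < L := by exact_mod_cast hL1
  have hLR : (1 : ℝ) ≤ L := by exact_mod_cast hL1
  have hLbig : (p : ℝ) ^ (κ / 2) ≤ L := by
    have e1 : (p : ℝ) ^ κ = (p : ℝ) ^ (κ / 2) * (p : ℝ) ^ (κ / 2) := by
      rw [← Real.rpow_add hp0]; congr 1; ring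
    rw [e1] at hLlt
    nlinarith [Real.rpow_pos_of_pos hp0 (κ / 2)]
  have hLk : (p : ℝ) ≤ (L : ℝ) ^ k := by
    calc (p : ℝ) = (p : ℝ) ^ (1 : ℝ) := (Real.rpow_one _).symm
      _ ≤ (p : ℝ) ^ (κ / 2 * k) := Real.rpow_le_rpow_of_exponent_le hp1 hκk
      _ = ((p : ℝ) ^ (κ / 2)) ^ k := by rw [Real.rpow_mul hp0.le, Real.rpow_natCast]
      _ ≤ (L : ℝ) ^ k := pow_le_pow_left₀ (by positivity) hLbig k
  have hLp : 2 * L ≤ p := by
    have h1 : (p : ℝ) ^ (κ / 2) ≤ (p : ℝ) ^ (1 - κ) :=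
      Real.rpow_le_rpow_of_exponent_le hp1 (by linarith)
    have h3 : (2 : ℝ) * L ≤ p := by
      calc (2 : ℝ) * L ≤ (p : ℝ) ^ (1 - κ) * (p : ℝ) ^ κ :=
            mul_le_mul (hP4'.le.trans h1) hLle hL0.le (by positivity)
        _ = p := by rw [← Real.rpow_add hp0]; norm_num
    exact_mod_cast h3
  have hexc := exc_card (p := p) L k hLp hL1 hk1 hLk ((p : ℝ) ^ (2 * (δ - 4 * e))) (by positivity)
  have hsub : {χ : DirichletCharacter ℂ p | Exc C δ τ p χ}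
      ⊆ {χ : DirichletCharacter ℂ p | (p : ℝ) ^ (2 * (δ - 4 * e))
          < ((Bad L χ ((L : ℝ) ^ (1 - 1 / (2 * (k : ℝ))))).card : ℝ)} := by
    rintro χ ⟨n, P, A, hn, hnp, hP, hL, hA, hAP, hlarge⟩
    rw [Set.mem_ofPred_eq]
    by_contra hcon
    have h1 := hP2 p (by omega) χ L hLdef (not_lt.1 hcon) n hn hnp P (by
      rw [show δ - 4 * e + 4 * e = δ by ring]
      exact hP) hL A hA hAP
    have h2 := strict_of_bound hp1n hτ hA h1
    linarith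
  have hmono := Set.ncard_le_ncard hsub (Set.toFinite _)
  have hmonoR : ({χ : DirichletCharacter ℂ p | Exc C δ τ p χ}.ncard : ℝ)
      ≤ ({χ : DirichletCharacter ℂ p | (p : ℝ) ^ (2 * (δ - 4 * e))
          < ((Bad L χ ((L : ℝ) ^ (1 - 1 / (2 * (k : ℝ))))).card : ℝ)}.ncard : ℝ) := by
    exact_mod_cast hmono
  refine hmonoR.trans (hexc.trans ?_)
  rw [div_le_iff₀ (by positivity)]
  have hL2 : (L : ℝ) ^ 2 ≤ (p : ℝ) ^ (2 * κ) := by
    calc (L : ℝ) ^ 2 ≤ ((p : ℝ) ^ κ) ^ 2 := pow_le_pow_left₀ hL0.le hLle _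
      _ = (p : ℝ) ^ (2 * κ) := by
          rw [← Real.rpow_natCast, ← Real.rpow_mul hp0.le]
          congr 1
          push_cast
          ring
  calc (2 * 4 ^ k * (k + (k : ℝ) ^ k)) * p * (L : ℝ) ^ 2
      ≤ (p : ℝ) ^ (ε / 4) * p * (p : ℝ) ^ (2 * κ) := by
        refine mul_le_mul (mul_le_mul_of_nonneg_right hP5'.le hp0.le) hL2 (by positivity)
          (by positivity)
    _ = (p : ℝ) ^ (ε / 4 + 1 + 2 * κ) := by
        rw [Real.rpow_add hp0, Real.rpow_add hp0, Real.rpow_one]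
    _ ≤ (p : ℝ) ^ ((1 - 2 * δ + ε) + 2 * (δ - 4 * e)) :=
        Real.rpow_le_rpow_of_exponent_le hp1 (by linarith)
    _ = (p : ℝ) ^ (1 - 2 * δ + ε) * (p : ℝ) ^ (2 * (δ - 4 * e)) := by rw [Real.rpow_add hp0]

end Pool.Agent.V1121.PG
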